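import Mathlib

/-!
# Module ApS: sums of a parabola over a residue class

PROOF. Put `g t = max (T ^ 2 - t ^ 2) 0` and, for `t ≥ 0`, `G t = T ^ 2 * min t T - (min t T) ^ 3 / 3`.
(1) For `0 ≤ s ≤ t`: `(t - s) * g t ≤ G t - G s`, and `G t ≤ 2 / 3 * T ^ 3`. (If `t ≤ T`:
`G t - G s = (t - s) (T ^ 2 - (t ^ 2 + t s + s ^ 2) / 3)`. If `t > T`: `g t = 0`, `G t = 2 T ^ 3 / 3` and for
`s ≤ T`: `G t - G s = (T - s) ^ 2 (2 T + s) / 3 ≥ 0`.)
(2) For `r ≥ 0` and `N : ℕ`: `p * ∑ j ∈ range N, g (r + (j + 1) * p) ≤ G (r + N * p) - G r ≤ 2 / 3 * T ^ 3 - G r`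
(induction with (1)).
(3) Let `r = (c.val : ℝ) ∈ [0, p)`, `r' = p - r`. Every `u ∈ W` is `c.val + j p`, `j : ℤ`; for `j ≥ 0` it is
`r + j p`, for `j < 0` it is `-(r' + (-j - 1) p)`. So for `N` large
`∑ u ∈ W, g u ≤ g r + ∑ j ∈ range N, g (r + (j + 1) p) + g r' + ∑ j ∈ range N, g (r' + (j + 1) p)` and by (2)
`p * ∑ ≤ p * g r + p * g r' + 4 / 3 * T ^ 3 - G r - G r'`. By (1) with `s = 0`: `G r ≥ r * g r`, `G r' ≥ r' * g r'`, so
`G r + G r' ≥ p * min (g r) (g r')`, and `g r + g r' - min (g r) (g r') = max (g r) (g r') ≤ T ^ 2`.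
-/

set_option autoImplicit false

namespace H59.CM

open Finset

private noncomputable def ApS_g (T t : ℝ) : ℝ := max (T ^ 2 - t ^ 2) 0

private noncomputable def ApS_G (T t : ℝ) : ℝ := T ^ 2 * min t T - (min t T) ^ 3 / 3

private lemma ApS_g_le (T t : ℝ) : ApS_g T t ≤ T ^ 2 :=
  max_le (by linarith [sq_nonneg t]) (sq_nonneg T)

private lemma ApS_step {T : ℝ} (hT : 0 ≤ T) {s t : ℝ} (hs : 0 ≤ s) (hst : s ≤ t) :
    (t - s) * ApS_g T t ≤ ApS_G T t - ApS_G T s := by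
  unfold ApS_g ApS_G
  rcases le_total t T with h | h
  · have h1 : s ≤ T := hst.trans h
    rw [min_eq_left h, min_eq_left h1, max_eq_left (by nlinarith)]
    nlinarith [mul_nonneg (sub_nonneg.2 hst) (mul_nonneg (sub_nonneg.2 hst) (by linarith : 0 ≤ 2 * t + s)),
      sq_nonneg (t - s)]
  · have h0 : max (T ^ 2 - t ^ 2) 0 = 0 := max_eq_right (by nlinarith)
    rw [h0, mul_zero, min_eq_right h]
    rcases le_total s T with h1 | h1
    · rw [min_eq_left h1]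
      nlinarith [mul_nonneg (sq_nonneg (T - s)) (by linarith : 0 ≤ 2 * T + s)]
    · rw [min_eq_right h1]
      linarith

private lemma ApS_G_le {T : ℝ} (hT : 0 ≤ T) {t : ℝ} (ht : 0 ≤ t) : ApS_G T t ≤ 2 / 3 * T ^ 3 := by
  unfold ApS_G
  rcases le_total t T with h | h
  · rw [min_eq_left h]
    nlinarith [mul_nonneg (sq_nonneg (T - t)) (by linarith : 0 ≤ 2 * T + t)]
  · rw [min_eq_right h]
    linarith

private lemma ApS_G_ge {T : ℝ} (hT : 0 ≤ T) {t : ℝ} (ht : 0 ≤ t) : t * ApS_g T t ≤ ApS_G T t := by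
  have h := ApS_step hT le_rfl ht
  have h0 : ApS_G T 0 = 0 := by
    unfold ApS_G
    rw [min_eq_left hT]
    ring
  rw [h0, sub_zero, sub_zero] at h
  exact h

private lemma ApS_sum {T : ℝ} (hT : 0 ≤ T) {q r : ℝ} (hq : 0 ≤ q) (hr : 0 ≤ r) (N : ℕ) :
    q * ∑ j ∈ range N, ApS_g T (r + ((j : ℝ) + 1) * q) ≤ ApS_G T (r + N * q) - ApS_G T r := by
  induction N with
  | zero => simp
  | succ N ih =>
    rw [sum_range_succ, mul_add]
    have hN : (0 : ℝ) ≤ N := Nat.cast_nonneg N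
    have h := ApS_step hT (s := r + N * q) (t := r + ((N : ℝ) + 1) * q)
      (by positivity) (by nlinarith)
    have e : r + ((N : ℝ) + 1) * q - (r + N * q) = q := by ring
    rw [e] at h
    push_cast
    linarith

private lemma ApS_half {T : ℝ} (hT : 0 ≤ T) {q r : ℝ} (hq : 0 ≤ q) (hr : 0 ≤ r) (hrq : r ≤ q)
    (N : ℕ) : q * ∑ j ∈ range (N + 1), ApS_g T (r + (j : ℝ) * q) ≤
      2 / 3 * T ^ 3 + (q - r) * T ^ 2 := by
  rw [sum_range_succ']
  have h1 := ApS_sum hT hq hr N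
  have h2 := ApS_G_le hT (t := r + N * q) (by positivity)
  have h3 := ApS_G_ge hT hr
  have h4 := ApS_g_le T r
  have h5 : (q - r) * ApS_g T r ≤ (q - r) * T ^ 2 :=
    mul_le_mul_of_nonneg_left h4 (by linarith)
  push_cast
  rw [mul_add, zero_mul, add_zero]
  linarith

theorem ap_sum {p : ℕ} [Fact p.Prime] (T : ℝ) (hT : 0 ≤ T) (c : ZMod p) (W : Finset ℤ)
    (hW : ∀ u ∈ W, (u : ZMod p) = c) :
    ∑ u ∈ W, max (T ^ 2 - (u : ℝ) ^ 2) 0 ≤ 4 / 3 * T ^ 3 / p + T ^ 2 := by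
  have hp : 0 < p := (Fact.out : p.Prime).pos
  have hpR : (0 : ℝ) < p := by exact_mod_cast hp
  obtain ⟨r, hr⟩ : ∃ r : ℕ, r = c.val := ⟨_, rfl⟩
  have hrp : r < p := hr ▸ ZMod.val_lt c
  have hrR : (r : ℝ) ≤ p := by exact_mod_cast hrp.le
  have hmod : ∀ u ∈ W, ∃ j : ℤ, u = r + j * p := by
    intro u hu
    have h1 : ((u - (r : ℤ) : ℤ) : ZMod p) = 0 := by
      push_cast
      rw [hW u hu, hr, ZMod.natCast_zmod_val, sub_self]
    rw [ZMod.intCast_zmod_eq_zero_iff_dvd] at h1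
    obtain ⟨j, hj⟩ := h1
    exact ⟨j, by linarith⟩
  obtain ⟨N, hN⟩ : ∃ N : ℕ, ∀ u ∈ W, u.natAbs ≤ N :=
    ⟨W.sup Int.natAbs, fun u hu => Finset.le_sup (f := Int.natAbs) hu⟩
  obtain ⟨A, hA⟩ : ∃ A : Finset ℤ,
      A = (range (N + 1)).image (fun j : ℕ => (r : ℤ) + j * p) := ⟨_, rfl⟩
  obtain ⟨B, hB⟩ : ∃ B : Finset ℤ,
      B = (range (N + 1)).image (fun j : ℕ => -(((p : ℤ) - r) + j * p)) := ⟨_, rfl⟩
  have hpZ : (0 : ℤ) < p := by exact_mod_cast hp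
  have hsub : W ⊆ A ∪ B := by
    intro u hu
    obtain ⟨j, hj⟩ := hmod u hu
    have hNu := hN u hu
    have hrZ : (r : ℤ) < p := by exact_mod_cast hrp
    rw [mem_union]
    rcases le_or_gt 0 j with h | h
    · left
      rw [hA, mem_image]
      obtain ⟨k, rfl⟩ := Int.eq_ofNat_of_zero_le h
      refine ⟨k, ?_, by rw [hj]⟩
      rw [mem_range]
      have h2 : (k : ℤ) ≤ k * p := le_mul_of_one_le_right (by omega) (by omega)
      omega
    · right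
      rw [hB, mem_image]
      obtain ⟨k, hk⟩ := Int.eq_ofNat_of_zero_le (by omega : 0 ≤ -j - 1)
      refine ⟨k, ?_, ?_⟩
      · rw [mem_range]
        have h2 : (k : ℤ) ≤ k * p := le_mul_of_one_le_right (by omega) (by omega)
        have h3 : j = -(k : ℤ) - 1 := by omega
        rw [h3] at hj
        have h4 : u = (r : ℤ) - p - k * p := by rw [hj]; ring
        omega
      · have h3 : j = -(k : ℤ) - 1 := by omega
        rw [hj, h3]
        ring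
  have hg0 : ∀ u : ℤ, 0 ≤ ApS_g T (u : ℝ) := fun u => le_max_right _ _
  have hsA : ∑ u ∈ A, ApS_g T (u : ℝ) = ∑ j ∈ range (N + 1), ApS_g T ((r : ℝ) + (j : ℝ) * p) := by
    rw [hA, sum_image]
    · refine sum_congr rfl fun j _ => ?_
      push_cast
      rfl
    · intro i _ j _ h
      have h1 : ((r : ℤ) + i * p) = (r : ℤ) + j * p := h
      have h2 : (i : ℤ) * p = j * p := by linarith
      exact_mod_cast mul_right_cancel₀ hpZ.ne' h2
  have hsB : ∑ u ∈ B, ApS_g T (u : ℝ) =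
      ∑ j ∈ range (N + 1), ApS_g T (((p : ℝ) - r) + (j : ℝ) * p) := by
    rw [hB, sum_image]
    · refine sum_congr rfl fun j _ => ?_
      unfold ApS_g
      push_cast
      rw [neg_sq]
    · intro i _ j _ h
      have h1 : -(((p : ℤ) - r) + i * p) = -(((p : ℤ) - r) + j * p) := h
      have h2 : (i : ℤ) * p = j * p := by linarith
      exact_mod_cast mul_right_cancel₀ hpZ.ne' h2
  have h1 : ∑ u ∈ W, ApS_g T (u : ℝ) ≤ ∑ u ∈ A, ApS_g T (u : ℝ) + ∑ u ∈ B, ApS_g T (u : ℝ) := by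
    calc ∑ u ∈ W, ApS_g T (u : ℝ) ≤ ∑ u ∈ A ∪ B, ApS_g T (u : ℝ) :=
          sum_le_sum_of_subset_of_nonneg hsub fun u _ _ => hg0 u
      _ ≤ ∑ u ∈ A ∪ B, ApS_g T (u : ℝ) + ∑ u ∈ A ∩ B, ApS_g T (u : ℝ) :=
          le_add_of_nonneg_right (sum_nonneg fun u _ => hg0 u)
      _ = _ := sum_union_inter
  have h2 := ApS_half hT hpR.le (Nat.cast_nonneg r) hrR N
  have h3 := ApS_half hT hpR.le (r := (p : ℝ) - r) (by linarith)
    (by linarith [(Nat.cast_nonneg r : (0 : ℝ) ≤ r)]) N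
  rw [← hsA] at h2
  rw [← hsB] at h3
  have h4 : (p : ℝ) * ∑ u ∈ W, ApS_g T (u : ℝ) ≤ 4 / 3 * T ^ 3 + p * T ^ 2 := by
    have h5 := mul_le_mul_of_nonneg_left h1 hpR.le
    rw [mul_add] at h5
    have e : (p : ℝ) - ((p : ℝ) - r) = r := by ring
    rw [e] at h3
    linarith
  have h6 : 4 / 3 * T ^ 3 / p + T ^ 2 = (4 / 3 * T ^ 3 + p * T ^ 2) / p := by
    field_simp
  rw [h6, le_div_iff₀ hpR, mul_comm]
  exact h4

end H59.CM
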