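import Mathlib

/-!
# Module Cls: the number of diagonal classes

PROOF. Let `f s = s - k * s⁻¹` on `X = {s ≠ 0}`, `#X = p - 1`. `f (-k * s⁻¹) = f s`. For a value `c` of `f` the fibre
has at least two elements, unless `c = f s` with `s = -k * s⁻¹`, that is `s ^ 2 = -k`; there are at most two such
`s` (`s` and `-s`), so at most two such `c`. So `p - 1 = ∑_c #fibre ≥ 2 * #image - 2`
(`card_eq_sum_card_fiberwise`).
`anti_card` is `cls_card` with `-k`.
-/

set_option autoImplicit false

namespace H59.CM

open Finset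

private lemma Cls_sq_card {p : ℕ} [Fact p.Prime] (a : ZMod p) :
    #{s : ZMod p | s ^ 2 = a} ≤ 2 := by
  by_cases h : ∃ s0 : ZMod p, s0 ^ 2 = a
  · obtain ⟨s0, hs0⟩ := h
    have hsub : ({s : ZMod p | s ^ 2 = a} : Finset (ZMod p)) ⊆ {s0, -s0} := by
      intro s hs
      rw [mem_filter] at hs
      have h0 : (s - s0) * (s + s0) = 0 := by
        linear_combination hs.2 - hs0
      rw [mem_insert, mem_singleton]
      rcases mul_eq_zero.mp h0 with h1 | h1
      · left
        exact sub_eq_zero.mp h1
      · right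
        exact eq_neg_of_add_eq_zero_left h1
    exact (card_le_card hsub).trans card_le_two
  · have : ({s : ZMod p | s ^ 2 = a} : Finset (ZMod p)) = ∅ := by
      rw [filter_eq_empty_iff]
      intro s _ hs
      exact h ⟨s, hs⟩
    rw [this]
    simp

theorem cls_card {p : ℕ} [Fact p.Prime] (k : ZMod p) (hk : k ≠ 0) :
    2 * #((univ.erase (0 : ZMod p)).image fun s => s - k * s⁻¹) ≤ p + 1 := by
  classical
  set X : Finset (ZMod p) := univ.erase (0 : ZMod p) with hX
  set f : ZMod p → ZMod p := fun s => s - k * s⁻¹ with hf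
  have hXc : #X = p - 1 := by
    rw [hX, card_erase_of_mem (mem_univ _), card_univ, ZMod.card]
  have hp1 : 1 < p := (Fact.out : p.Prime).one_lt
  set J : Finset (ZMod p) := ({s : ZMod p | s ^ 2 = -k} : Finset (ZMod p)).image f with hJ
  have hJc : #J ≤ 2 := card_image_le.trans (Cls_sq_card (-k))
  have h1 : #X = ∑ c ∈ X.image f, #{s ∈ X | f s = c} :=
    card_eq_sum_card_fiberwise (fun s hs => mem_image_of_mem _ hs)
  have h2 : ∀ c ∈ X.image f, 2 ≤ #{s ∈ X | f s = c} + (if c ∈ J then 1 else 0) := by
    intro c hc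
    obtain ⟨s, hs, rfl⟩ := mem_image.mp hc
    have hs0 : s ≠ 0 := (mem_erase.mp hs).1
    by_cases hsk : s ^ 2 = -k
    · have : f s ∈ J := mem_image_of_mem _ (by simp [hsk])
      rw [if_pos this]
      have : 1 ≤ #{t ∈ X | f t = f s} := card_pos.mpr ⟨s, by simp [hs]⟩
      omega
    · have hne : s ≠ -k * s⁻¹ := by
        intro h
        apply hsk
        have : s * s = -k * s⁻¹ * s := by rw [← h]
        rw [mul_assoc, inv_mul_cancel₀ hs0, mul_one] at this
        rw [pow_two]
        exact this
      have hmem : -k * s⁻¹ ∈ X := by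
        rw [hX, mem_erase]
        exact ⟨mul_ne_zero (neg_ne_zero.mpr hk) (inv_ne_zero hs0), mem_univ _⟩
      have hfe : f (-k * s⁻¹) = f s := by
        simp only [hf]
        field_simp
        ring
      have hsub : ({s, -k * s⁻¹} : Finset (ZMod p)) ⊆ ({t ∈ X | f t = f s} : Finset (ZMod p)) := by
        intro t ht
        rw [mem_insert, mem_singleton] at ht
        rw [mem_filter]
        rcases ht with rfl | rfl
        · exact ⟨hs, rfl⟩
        · exact ⟨hmem, hfe⟩
      have := card_le_card hsub
      rw [card_pair hne] at this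
      omega
  have h3 : ∑ c ∈ X.image f, 2 ≤ ∑ c ∈ X.image f, (#{s ∈ X | f s = c} + (if c ∈ J then 1 else 0)) :=
    sum_le_sum h2
  rw [sum_add_distrib, ← h1, sum_const, smul_eq_mul, ← card_filter] at h3
  have h4 : #{c ∈ X.image f | c ∈ J} ≤ #J := by
    apply card_le_card
    intro c hc
    exact (mem_filter.mp hc).2
  omega

theorem anti_card {p : ℕ} [Fact p.Prime] (k : ZMod p) (hk : k ≠ 0) :
    2 * #((univ.erase (0 : ZMod p)).image fun s => s + k * s⁻¹) ≤ p + 1 := by
  have h := cls_card (-k) (neg_ne_zero.mpr hk)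
  have he : (fun s : ZMod p => s - -k * s⁻¹) = fun s => s + k * s⁻¹ := by
    funext s
    ring
  rw [he] at h
  exact h

end H59.CM
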