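import Pool.Agent.H59.CM.Defs

/-!
# Module Cnt: number of representatives of a residue class

PROOF. `(y : ZMod p) = c` iff `y ≡ c.val [MOD p]` (`ZMod.natCast_eq_natCast_iff`,
`ZMod.natCast_zmod_val`), and `Nat.count_modEq_card` gives the number
`n / p + if c.val % p < n % p then 1 else 0`. `swap_four`: exchange the coordinates (for
`x - y = u` use `-u`).
-/

set_option autoImplicit false

namespace H59.CM

open Finset

private theorem Cnt_count {p : ℕ} [Fact p.Prime] (n : ℕ) (c : ZMod p) :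
    #{y ∈ range n | ((y : ℕ) : ZMod p) = c} = n / p + if c.val % p < n % p then 1 else 0 := by
  have hp : 0 < p := (Fact.out : p.Prime).pos
  rw [← Nat.count_modEq_card n hp c.val, Nat.count_eq_card_filter_range]
  congr 1
  ext y
  simp only [mem_filter, mem_range]
  have h : ((y : ℕ) : ZMod p) = c ↔ y ≡ c.val [MOD p] := by
    rw [← ZMod.natCast_eq_natCast_iff, ZMod.natCast_zmod_val]
  rw [h]

private theorem Cnt_map {n : ℕ} (T : Finset (ℕ × ℕ)) (P : ℕ × ℕ → Prop) [DecidablePred P]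
    (Q : ℕ × ℕ → Prop) [DecidablePred Q] (h : ∀ q : ℕ × ℕ, P (q.2, q.1) → Q q)
    (hQ : #{q ∈ T | Q q} ≤ n) :
    #{q ∈ T.map (Equiv.prodComm ℕ ℕ).toEmbedding | P q} ≤ n := by
  rw [filter_map, card_map]
  refine le_trans (card_le_card ?_) hQ
  intro q hq
  rw [mem_filter] at hq ⊢
  exact ⟨hq.1, h q hq.2⟩

theorem cnt_ge {p : ℕ} [Fact p.Prime] (n : ℕ) (c : ZMod p) :
    n / p ≤ #{y ∈ range n | ((y : ℕ) : ZMod p) = c} := by
  rw [Cnt_count]
  exact Nat.le_add_right _ _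

theorem cnt_le {p : ℕ} [Fact p.Prime] (n : ℕ) (c : ZMod p) :
    #{y ∈ range n | ((y : ℕ) : ZMod p) = c} ≤ (n + p - 1) / p := by
  rw [Cnt_count]
  have hp : 0 < p := (Fact.out : p.Prime).pos
  rw [Nat.le_div_iff_mul_le hp, add_mul]
  have h := Nat.div_add_mod n p
  split_ifs with hc
  · have h1 : 1 ≤ n % p := by omega
    rw [one_mul, mul_comm (n / p) p]
    omega
  · rw [zero_mul, mul_comm (n / p) p]
    omega

theorem cnt_le' {p : ℕ} [Fact p.Prime] (n : ℕ) (c : ZMod p) :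
    #{y ∈ range n | ((y : ℕ) : ZMod p) = c} ≤ n / p + 1 := by
  rw [Cnt_count]
  split_ifs <;> omega

theorem swap_four {n : ℕ} {T : Finset (ℕ × ℕ)} (hT : Four n T) :
    Four n (T.map (Equiv.prodComm ℕ ℕ).toEmbedding) := by
  refine ⟨fun q hq => ?_, fun y => ?_, fun x => ?_, fun u => ?_, fun v => ?_⟩
  · rw [mem_map] at hq
    obtain ⟨a, ha, rfl⟩ := hq
    exact ⟨(hT.box a ha).2, (hT.box a ha).1⟩
  · exact Cnt_map T _ _ (fun q hq => hq) (hT.col y)
  · exact Cnt_map T _ _ (fun q hq => hq) (hT.row x)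
  · refine Cnt_map T _ _ (fun q hq => ?_) (hT.dia (-u))
    have hq' : (q.2 : ℤ) - (q.1 : ℤ) = u := hq
    show (q.1 : ℤ) - (q.2 : ℤ) = -u
    omega
  · refine Cnt_map T _ _ (fun q hq => ?_) (hT.ant v)
    have hq' : q.2 + q.1 = v := hq
    show q.1 + q.2 = v
    omega

end H59.CM
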