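import Mathlib

/-!
# Module ColS: the sum over the columns

PROOF. Put `k t = max (t - R) 0 * (t + R)` and `K t = (max (t - R) 0) ^ 2 * (t + 2 * R) / 3`.
(1) For all `t : ℝ`: `2 * k t ≤ K (t + 1) - K (t - 1)`. If `t ≤ R`: `k t = 0`, `K (t - 1) = 0 ≤ K (t + 1)`
(if `t + 1 > R` then `t + 1 + 2 R > 0`). If `t - 1 ≥ R`: `K (t + 1) - K (t - 1) = 2 t ^ 2 + 2 / 3 - 2 R ^ 2`. If
`t - 1 < R < t`, `w = t - R ∈ (0, 1)`: `K (t - 1) = 0` and
`(w + 1) ^ 2 (w + 1 + 3 R) / 3 - 2 w (w + 2 R) = R (w - 1) ^ 2 + ((w - 1) ^ 3 + 2) / 3 ≥ 0`.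
(2) `max (t ^ 2 - R ^ 2) 0 = k t + k (-t)` for `R ≥ 0`.
(3) Telescoping: `∑ x ∈ range n, 2 * k (2 x - (n - 1)) ≤ K n - K (-n) = K n`, and the same for `k (-(2 x - (n - 1)))`
(reflection `x ↦ n - 1 - x`, `Finset.sum_range_reflect`, or telescoping again). So the sum is at most
`K n = (n - R) ^ 2 * (n + 2 * R) / 3`.
-/

set_option autoImplicit false

namespace H59.CM

open Finset

private noncomputable def ColS_k (R t : ℝ) : ℝ := max (t - R) 0 * (t + R)

private noncomputable def ColS_K (R t : ℝ) : ℝ := (max (t - R) 0) ^ 2 * (t + 2 * R) / 3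

private lemma ColS_step {R : ℝ} (hR : 0 ≤ R) (t : ℝ) :
    2 * ColS_k R t ≤ ColS_K R (t + 1) - ColS_K R (t - 1) := by
  unfold ColS_k ColS_K
  rcases le_or_gt t R with h | h
  · have h1 : max (t - R) 0 = 0 := max_eq_right (by linarith)
    have h2 : max (t - 1 - R) 0 = 0 := max_eq_right (by linarith)
    rw [h1, h2]
    rcases le_or_gt (t + 1) R with h3 | h3
    · have h4 : max (t + 1 - R) 0 = 0 := max_eq_right (by linarith)
      rw [h4]
      simp
    · have h4 : 0 ≤ (max (t + 1 - R) 0) ^ 2 := sq_nonneg _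
      have h5 : 0 ≤ t + 1 + 2 * R := by linarith
      have h6 := mul_nonneg h4 h5
      simp only [zero_mul, mul_zero, ne_eq, OfNat.ofNat_ne_zero, not_false_eq_true, zero_pow,
        zero_div, sub_zero]
      linarith
  · have h1 : max (t - R) 0 = t - R := max_eq_left (by linarith)
    have h4 : max (t + 1 - R) 0 = t + 1 - R := max_eq_left (by linarith)
    rw [h1, h4]
    rcases le_or_gt R (t - 1) with h3 | h3
    · have h2 : max (t - 1 - R) 0 = t - 1 - R := max_eq_left (by linarith)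
      rw [h2]
      nlinarith
    · have h2 : max (t - 1 - R) 0 = 0 := max_eq_right (by linarith)
      rw [h2]
      have hw0 : 0 < t - R := by linarith
      have hw1 : t - R < 1 := by linarith
      have h5 : (t + 1 - R) ^ 2 * (t + 1 + 2 * R) / 3 - 2 * ((t - R) * (t + R)) =
          R * (t - R - 1) ^ 2 + ((t - R - 1) ^ 3 + 2) / 3 := by ring
      have h6 : 0 ≤ R * (t - R - 1) ^ 2 := mul_nonneg hR (sq_nonneg _)
      have h7 : (-1 : ℝ) ≤ (t - R - 1) ^ 3 := by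
        have h8 : -1 ≤ t - R - 1 := by linarith
        have h9 : t - R - 1 ≤ 0 := by linarith
        nlinarith [sq_nonneg (t - R - 1), mul_nonneg (neg_nonneg.2 h9) (by linarith : 0 ≤ t - R - 1 + 1),
          mul_nonneg (sq_nonneg (t - R - 1)) (by linarith : 0 ≤ t - R - 1 + 1)]
      simp only [zero_mul, ne_eq, OfNat.ofNat_ne_zero, not_false_eq_true, zero_pow, zero_div,
        sub_zero]
      linarith

private lemma ColS_split {R : ℝ} (hR : 0 ≤ R) (t : ℝ) :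
    max (t ^ 2 - R ^ 2) 0 = ColS_k R t + ColS_k R (-t) := by
  unfold ColS_k
  rcases le_or_gt t R with h | h
  · have h1 : max (t - R) 0 = 0 := max_eq_right (by linarith)
    rcases le_or_gt (-R) t with h2 | h2
    · have h3 : max (-t - R) 0 = 0 := max_eq_right (by linarith)
      have h4 : max (t ^ 2 - R ^ 2) 0 = 0 := max_eq_right (by nlinarith)
      rw [h1, h3, h4]
      ring
    · have h3 : max (-t - R) 0 = -t - R := max_eq_left (by linarith)
      have h4 : max (t ^ 2 - R ^ 2) 0 = t ^ 2 - R ^ 2 := max_eq_left (by nlinarith)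
      rw [h1, h3, h4]
      ring
  · have h1 : max (t - R) 0 = t - R := max_eq_left (by linarith)
    have h3 : max (-t - R) 0 = 0 := max_eq_right (by linarith)
    have h4 : max (t ^ 2 - R ^ 2) 0 = t ^ 2 - R ^ 2 := max_eq_left (by nlinarith)
    rw [h1, h3, h4]
    ring

theorem col_sum (n : ℕ) (R : ℝ) (hR : 0 ≤ R) (hRn : R ≤ n) :
    ∑ x ∈ range n, max ((2 * (x : ℝ) - ((n : ℝ) - 1)) ^ 2 - R ^ 2) 0 ≤
      ((n : ℝ) - R) ^ 2 * ((n : ℝ) + 2 * R) / 3 := by
  have hn : ColS_K R n = ((n : ℝ) - R) ^ 2 * ((n : ℝ) + 2 * R) / 3 := by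
    unfold ColS_K
    rw [max_eq_left (by linarith)]
  have hm : ColS_K R (-(n : ℝ)) = 0 := by
    unfold ColS_K
    have h1 : (0 : ℝ) ≤ n := Nat.cast_nonneg n
    rw [max_eq_right (by linarith)]
    simp
  have hA : ∑ x ∈ range n, 2 * ColS_k R (2 * (x : ℝ) - ((n : ℝ) - 1)) ≤ ColS_K R n := by
    calc ∑ x ∈ range n, 2 * ColS_k R (2 * (x : ℝ) - ((n : ℝ) - 1))
        ≤ ∑ x ∈ range n, (ColS_K R (2 * ((x + 1 : ℕ) : ℝ) - n) - ColS_K R (2 * (x : ℝ) - n)) := by
          refine sum_le_sum fun x _ => ?_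
          have h1 := ColS_step hR (2 * (x : ℝ) - ((n : ℝ) - 1))
          have h2 : 2 * (x : ℝ) - ((n : ℝ) - 1) + 1 = 2 * ((x + 1 : ℕ) : ℝ) - n := by
            push_cast; ring
          have h3 : 2 * (x : ℝ) - ((n : ℝ) - 1) - 1 = 2 * (x : ℝ) - n := by ring
          rwa [h2, h3] at h1
      _ = ColS_K R (2 * (n : ℝ) - n) - ColS_K R (2 * ((0 : ℕ) : ℝ) - n) :=
          sum_range_sub (fun x : ℕ => ColS_K R (2 * (x : ℝ) - n)) n
      _ = ColS_K R n := by
          have h1 : 2 * (n : ℝ) - n = n := by ring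
          have h2 : 2 * ((0 : ℕ) : ℝ) - n = -n := by simp
          rw [h1, h2, hm, sub_zero]
  have hB : ∑ x ∈ range n, 2 * ColS_k R (-(2 * (x : ℝ) - ((n : ℝ) - 1))) ≤ ColS_K R n := by
    calc ∑ x ∈ range n, 2 * ColS_k R (-(2 * (x : ℝ) - ((n : ℝ) - 1)))
        ≤ ∑ x ∈ range n, (ColS_K R (n - 2 * (x : ℝ)) - ColS_K R (n - 2 * ((x + 1 : ℕ) : ℝ))) := by
          refine sum_le_sum fun x _ => ?_
          have h1 := ColS_step hR (-(2 * (x : ℝ) - ((n : ℝ) - 1)))
          have h2 : -(2 * (x : ℝ) - ((n : ℝ) - 1)) + 1 = n - 2 * (x : ℝ) := by ring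
          have h3 : -(2 * (x : ℝ) - ((n : ℝ) - 1)) - 1 = n - 2 * ((x + 1 : ℕ) : ℝ) := by
            push_cast; ring
          rwa [h2, h3] at h1
      _ = ColS_K R (n - 2 * ((0 : ℕ) : ℝ)) - ColS_K R (n - 2 * (n : ℝ)) :=
          sum_range_sub' (fun x : ℕ => ColS_K R (n - 2 * (x : ℝ))) n
      _ = ColS_K R n := by
          have h1 : (n : ℝ) - 2 * (n : ℝ) = -n := by ring
          have h2 : (n : ℝ) - 2 * ((0 : ℕ) : ℝ) = n := by simp
          rw [h1, h2, hm, sub_zero]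
  have hC : ∑ x ∈ range n, max ((2 * (x : ℝ) - ((n : ℝ) - 1)) ^ 2 - R ^ 2) 0 =
      ∑ x ∈ range n, ColS_k R (2 * (x : ℝ) - ((n : ℝ) - 1)) +
        ∑ x ∈ range n, ColS_k R (-(2 * (x : ℝ) - ((n : ℝ) - 1))) := by
    rw [← sum_add_distrib]
    exact sum_congr rfl fun x _ => ColS_split hR _
  rw [← mul_sum] at hA hB
  rw [hC, ← hn]
  linarith

end H59.CM
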