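import Pool.Agent.H59.N3.Defs

/-!
# The limit of the conic method (MP_904bce_co, no-three-in-line problem)

THEOREM. Let `p` be a prime, `5 ≤ p ≤ n`, and let `S` be a subset of the `n × n` grid with no three
points in line whose points, reduced mod `p`, all lie on one nondegenerate conic
`A x² + B x y + C y² + D x + E y + F = 0` over `ZMod p`.  Put `q = ⌊n/p⌋`, `Q = ⌈n/p⌉`.
1. If `A ≠ 0` or `C ≠ 0` then `|S| ≤ (q+1)(p+3)` and `|S| ≤ 2 n - q (p - 3)`
   (so `|S| ≤ 4n/3 + 3q + 3`).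
2. If `A = C = 0` (an axis-parallel hyperbola `(x-a)(y-b) = k`) then
   `|S| ≤ 2 n - p - 2 q + 4 Q - 5` if `p < n` (for `n = 2p` this is `3p - 1`, and
   Hall, Jackson, Sudbery and Wild have sets with `3p - 3` points) and
   `|S| ≤ (√21 - 3) n + 1.1 n / p + 1.04 (p + 1)`.
3. In all cases `|S| ≤ 1.8 n + 13`.

Only the rows, columns and the two kinds of diagonals are used (`Four`).
-/

set_option autoImplicit false

namespace H59.CM

open Finset
open H59.N3 (Cell NoThree det)

/-- `T` lies in `[0, n)²` and has at most two elements on every row, column, diagonal and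
antidiagonal -/
structure Four (n : ℕ) (T : Finset (ℕ × ℕ)) : Prop where
  box : ∀ q ∈ T, q.1 < n ∧ q.2 < n
  row : ∀ y : ℕ, #{q ∈ T | q.2 = y} ≤ 2
  col : ∀ x : ℕ, #{q ∈ T | q.1 = x} ≤ 2
  dia : ∀ u : ℤ, #{q ∈ T | (q.1 : ℤ) - (q.2 : ℤ) = u} ≤ 2
  ant : ∀ v : ℕ, #{q ∈ T | q.1 + q.2 = v} ≤ 2

/-- the value of the quadratic polynomial at the residues mod `p` of `(x, y)` -/
def qf {p : ℕ} (A B C D E F : ZMod p) (x y : ℕ) : ZMod p :=
  A * (x : ZMod p) ^ 2 + B * (x : ZMod p) * (y : ZMod p) + C * (y : ZMod p) ^ 2 +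
    D * (x : ZMod p) + E * (y : ZMod p) + F

/-- the determinant of the conic; the conic is nondegenerate when it is not zero -/
def disc {p : ℕ} (A B C D E F : ZMod p) : ZMod p :=
  4 * A * C * F + B * D * E - A * E ^ 2 - C * D ^ 2 - F * B ^ 2

/-- the cell `q`, reduced mod `p`, lies on the hyperbola `(x - a) (y - b) = k` -/
def Hy {p : ℕ} (a b k : ZMod p) (q : ℕ × ℕ) : Prop :=
  ((q.1 : ZMod p) - a) * ((q.2 : ZMod p) - b) = k

open Classical in
/-- the cells of `[0, n)²` on the hyperbola which are the first cells of their residue class on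
their diagonal -/
noncomputable def Fst (n p : ℕ) (a b k : ZMod p) : Finset (ℕ × ℕ) :=
  {q ∈ range n ×ˢ range n | Hy a b k q ∧ (q.1 < p ∨ q.2 < p)}

open Classical in
/-- the elements `q` of `Fst` on the tangent diagonals `x - a = - (y - b)` for which `q + (p, p)` is
still in `[0, n)²` -/
noncomputable def Tan (n p : ℕ) (a b k : ZMod p) : Finset (ℕ × ℕ) :=
  {q ∈ range n ×ˢ range n | Hy a b k q ∧ (q.1 < p ∨ q.2 < p) ∧
    (q.2 : ZMod p) - b = -((q.1 : ZMod p) - a) ∧ q.1 + p < n ∧ q.2 + p < n}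

end H59.CM
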