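import Pool.Agent.H59.CM.Cnt

/-!
# Module FstC: the number of first cells

PROOF. `Fst = P ∪ P'` with `P = {q | q.1 < p, q.2 < n, Hy}`, `P' = {q | q.1 < n, q.2 < p, Hy}` (`p ≤ n`), and
`P ∩ P' = {q | q.1 < p, q.2 < p, Hy}`. `#P ≤ n - n / p`: the map `q ↦ q.2` is injective on `P` (the residue of
`q.1` is `a + k / (q.2 - b)` and `q.1 < p`: `ZMod.val_cast_of_lt`, or `Nat.ModEq`) and its image is contained in
`range n` minus the class of `b`, which has at least `n / p` elements (`cnt_ge`). The same for `P'`.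
`#(P ∩ P') ≥ p - 1`: for `s ≠ 0` the cell `((a + s).val, (b + k / s).val)` is in it, injective in `s`
(`#(univ.erase 0) = p - 1`). `card_union_add_card_inter`.
-/

set_option autoImplicit false

namespace H59.CM

open Finset

open Classical in
private theorem FstC_row {p : ℕ} [Fact p.Prime] {n : ℕ} (a b k : ZMod p) (hk : k ≠ 0) :
    #{q ∈ range n ×ˢ range n | Hy a b k q ∧ q.1 < p} + n / p ≤ n := by
  have h1 : #{q ∈ range n ×ˢ range n | Hy a b k q ∧ q.1 < p} ≤
      #{y ∈ range n | ¬ ((y : ℕ) : ZMod p) = b} := by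
    apply card_le_card_of_injOn Prod.snd
    · intro q hq
      rw [mem_coe, mem_filter, mem_product, mem_range, mem_range] at hq
      obtain ⟨⟨_, h2⟩, h3, _⟩ := hq
      rw [mem_coe, mem_filter, mem_range]
      refine ⟨h2, fun h => hk ?_⟩
      unfold Hy at h3
      rw [← h3, h, sub_self, mul_zero]
    · intro q hq q' hq' h
      rw [mem_coe, mem_filter] at hq hq'
      obtain ⟨_, h3, h4⟩ := hq
      obtain ⟨_, h3', h4'⟩ := hq'
      unfold Hy at h3 h3'
      have h5 : ((q.2 : ZMod p) - b) ≠ 0 := by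
        intro h
        rw [h, mul_zero] at h3
        exact hk h3.symm
      rw [← h] at h3'
      have h6 : ((q.1 : ZMod p) - a) = ((q'.1 : ZMod p) - a) :=
        mul_right_cancel₀ h5 (h3.trans h3'.symm)
      have h7 : (q.1 : ZMod p) = (q'.1 : ZMod p) := sub_left_injective h6
      rw [ZMod.natCast_eq_natCast_iff] at h7
      exact Prod.ext (h7.eq_of_lt_of_lt h4 h4') h
  have h2 := cnt_ge n b
  have h3 := card_filter_add_card_filter_not (s := range n) (fun y : ℕ => ((y : ℕ) : ZMod p) = b)
  rw [card_range] at h3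
  omega

open Classical in
private theorem FstC_col {p : ℕ} [Fact p.Prime] {n : ℕ} (a b k : ZMod p) (hk : k ≠ 0) :
    #{q ∈ range n ×ˢ range n | Hy a b k q ∧ q.2 < p} + n / p ≤ n := by
  have h1 : #{q ∈ range n ×ˢ range n | Hy a b k q ∧ q.2 < p} ≤
      #{y ∈ range n | ¬ ((y : ℕ) : ZMod p) = a} := by
    apply card_le_card_of_injOn Prod.fst
    · intro q hq
      rw [mem_coe, mem_filter, mem_product, mem_range, mem_range] at hq
      obtain ⟨⟨h2, _⟩, h3, _⟩ := hq
      rw [mem_coe, mem_filter, mem_range]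
      refine ⟨h2, fun h => hk ?_⟩
      unfold Hy at h3
      rw [← h3, h, sub_self, zero_mul]
    · intro q hq q' hq' h
      rw [mem_coe, mem_filter] at hq hq'
      obtain ⟨_, h3, h4⟩ := hq
      obtain ⟨_, h3', h4'⟩ := hq'
      unfold Hy at h3 h3'
      have h5 : ((q.1 : ZMod p) - a) ≠ 0 := by
        intro h
        rw [h, zero_mul] at h3
        exact hk h3.symm
      rw [← h] at h3'
      have h6 : ((q.2 : ZMod p) - b) = ((q'.2 : ZMod p) - b) :=
        mul_left_cancel₀ h5 (h3.trans h3'.symm)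
      have h7 : (q.2 : ZMod p) = (q'.2 : ZMod p) := sub_left_injective h6
      rw [ZMod.natCast_eq_natCast_iff] at h7
      exact Prod.ext h (h7.eq_of_lt_of_lt h4 h4')
  have h2 := cnt_ge n a
  have h3 := card_filter_add_card_filter_not (s := range n) (fun y : ℕ => ((y : ℕ) : ZMod p) = a)
  rw [card_range] at h3
  omega

theorem Fst_card {p : ℕ} [Fact p.Prime] {n : ℕ} (hpn : p ≤ n) (a b k : ZMod p) (hk : k ≠ 0) :
    #(Fst n p a b k) + (p - 1) + 2 * (n / p) ≤ 2 * n := by
  classical
  have hU : Fst n p a b k = {q ∈ range n ×ˢ range n | Hy a b k q ∧ q.1 < p} ∪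
      {q ∈ range n ×ˢ range n | Hy a b k q ∧ q.2 < p} := by
    unfold Fst
    ext q
    simp only [mem_filter, mem_union]
    tauto
  have h1 := FstC_row (n := n) a b k hk
  have h2 := FstC_col (n := n) a b k hk
  have h3 : p - 1 ≤ #(({q ∈ range n ×ˢ range n | Hy a b k q ∧ q.1 < p} : Finset (ℕ × ℕ)) ∩
      {q ∈ range n ×ˢ range n | Hy a b k q ∧ q.2 < p}) := by
    have h4 : #((univ : Finset (ZMod p)).erase 0) = p - 1 := by
      rw [card_erase_of_mem (mem_univ _), card_univ, ZMod.card]
    rw [← h4]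
    apply card_le_card_of_injOn (fun s : ZMod p => ((a + s).val, (b + k / s).val))
    · intro s hs
      rw [mem_coe, mem_erase] at hs
      have h5 : (a + s).val < p := ZMod.val_lt _
      have h6 : (b + k / s).val < p := ZMod.val_lt _
      have h7 : Hy a b k ((a + s).val, (b + k / s).val) := by
        unfold Hy
        simp only [ZMod.natCast_val, ZMod.cast_id', id_eq, add_sub_cancel_left]
        exact mul_div_cancel₀ k hs.1
      rw [mem_coe, mem_inter, mem_filter, mem_filter, mem_product, mem_range, mem_range]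
      exact ⟨⟨⟨h5.trans_le hpn, h6.trans_le hpn⟩, h7, h5⟩,
        ⟨⟨h5.trans_le hpn, h6.trans_le hpn⟩, h7, h6⟩⟩
    · intro s _ s' _ h
      have h5 : (a + s).val = (a + s').val := congrArg Prod.fst h
      exact add_left_cancel (ZMod.val_injective p h5)
  have h4 := card_union_add_card_inter
    ({q ∈ range n ×ˢ range n | Hy a b k q ∧ q.1 < p} : Finset (ℕ × ℕ))
    {q ∈ range n ×ˢ range n | Hy a b k q ∧ q.2 < p}
  rw [← hU] at h4
  omega

end H59.CM
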