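import Pool.Agent.H24.KS.Equid

/-!
# Module Kc: the values `s - k / s` in an interval

PROOF. `1 = [s - k s⁻¹ = A + i]` is `(1 / p) ∑_h ψ(h (s - k s⁻¹ - A - i))`, `ψ = ZMod.stdAddChar` (orthogonality as in
`count_pair` in `H24/KS/Equid.lean`). For `i < L ≤ p` the residues `A + i` are distinct, so the number is
`(1 / p) ∑_h Kl p h (-(h k)) * AP p 1 α L h` with `α : ℕ` the representative of `A` (`(α : ZMod p) = A`). The term `h = 0` is
`(p - 1) L / p ≤ L` (`AP_zero`; `Kl p 0 0` = number of units). For `h ≠ 0`: `‖Kl p h _‖ ≤ nz p h * (p * 2) ^ (3 / 4)` (`Kl_le'`,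
`Nat.Prime.prime.squarefree`, `divisors` of a prime: two), `nz p h = 1`, and
`‖AP p 1 α L h‖ ≤ p / (2 |h|)` (`AP_le`, `M = 1`), `|h| = h.valMinAbs.natAbs ∈ [1, (p - 1) / 2]`, every value at most twice. So the
rest is at most `(2 p) ^ (3 / 4) ∑_{j ≤ p / 2} 1 / j ≤ (2 p) ^ (3 / 4) (1 + log p)` (`harmonic_le_one_add_log` or the sum
estimate in `H24/KS/Equid.lean`).
-/

set_option autoImplicit false

namespace H59.CM

open Finset

/-- the error term -/
noncomputable def Er (p : ℕ) : ℝ := (2 * (p : ℝ)) ^ ((3 : ℝ) / 4) * (1 + Real.log p)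

open Pool.Agent.H24.KS in
private lemma Kc_nz {p : ℕ} [Fact p.Prime] {h : ZMod p} (hh : h ≠ 0) : nz p h = 1 := by
  unfold nz
  rw [Finset.card_eq_one]
  refine ⟨0, ?_⟩
  ext w
  simp [hh]

private lemma Kc_val {p : ℕ} [Fact p.Prime] :
    ∑ h ∈ (univ : Finset (ZMod p)).erase 0, 1 / (h.val : ℝ) ≤ 1 + Real.log p := by
  have hinj : Set.InjOn (fun h : ZMod p => h.val) ((univ : Finset (ZMod p)).erase 0) :=
    fun h _ h' _ hh => ZMod.val_injective p hh
  rw [← Finset.sum_image (f := fun j : ℕ => 1 / (j : ℝ)) hinj]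
  have hsub : ((univ : Finset (ZMod p)).erase 0).image (fun h : ZMod p => h.val) ⊆ Icc 1 p := by
    intro j hj
    rw [mem_image] at hj
    obtain ⟨h, hh, rfl⟩ := hj
    rw [mem_Icc]
    refine ⟨Nat.pos_of_ne_zero fun h0 => (mem_erase.1 hh).1 ((ZMod.val_eq_zero h).1 h0), ?_⟩
    exact (ZMod.val_lt h).le
  refine (sum_le_sum_of_subset_of_nonneg hsub (fun _ _ _ => by positivity)).trans ?_
  have := harmonic_le_one_add_log p
  rw [harmonic_eq_sum_Icc] at this
  push_cast at this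
  simpa [one_div] using this

private lemma Kc_dist {p : ℕ} [Fact p.Prime] :
    ∑ h ∈ (univ : Finset (ZMod p)).erase 0, 1 / (2 * (h.valMinAbs.natAbs : ℝ)) ≤
      1 + Real.log p := by
  have hval : ∀ h ∈ (univ : Finset (ZMod p)).erase 0, 0 < h.val := by
    intro h hh
    rw [mem_erase] at hh
    exact Nat.pos_of_ne_zero (fun h0 => hh.1 ((ZMod.val_eq_zero h).mp h0))
  have hneg : ∀ h ∈ (univ : Finset (ZMod p)).erase 0, -h ∈ (univ : Finset (ZMod p)).erase 0 := by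
    intro h hh
    rw [mem_erase] at hh ⊢
    exact ⟨neg_ne_zero.mpr hh.1, mem_univ _⟩
  have h1 : ∀ h ∈ (univ : Finset (ZMod p)).erase 0, 1 / (2 * (h.valMinAbs.natAbs : ℝ)) ≤
      1 / 2 * (1 / (h.val : ℝ)) + 1 / 2 * (1 / ((-h).val : ℝ)) := by
    intro h hh
    have hv := hval h hh
    have hv' := hval (-h) (hneg h hh)
    have hvR : (0:ℝ) < h.val := by exact_mod_cast hv
    have hvR' : (0:ℝ) < (-h).val := by exact_mod_cast hv'
    have hcase : h.valMinAbs.natAbs = h.val ∨ h.valMinAbs.natAbs = (-h).val := by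
      have h0 : h ≠ 0 := (mem_erase.mp hh).1
      rw [ZMod.valMinAbs_def_pos]
      split_ifs with hc
      · left
        exact Int.natAbs_natCast _
      · right
        have : NeZero h := ⟨h0⟩
        rw [ZMod.val_neg_of_ne_zero]
        have := ZMod.val_lt h
        omega
    rcases hcase with hc | hc
    · rw [hc]
      have e : 1 / (2 * (h.val : ℝ)) = 1 / 2 * (1 / (h.val : ℝ)) := by field_simp
      rw [e]
      have : 0 ≤ 1 / 2 * (1 / ((-h).val : ℝ)) := by positivity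
      linarith
    · rw [hc]
      have e : 1 / (2 * ((-h).val : ℝ)) = 1 / 2 * (1 / ((-h).val : ℝ)) := by field_simp
      rw [e]
      have : 0 ≤ 1 / 2 * (1 / (h.val : ℝ)) := by positivity
      linarith
  refine (sum_le_sum h1).trans ?_
  rw [sum_add_distrib, ← mul_sum, ← mul_sum]
  have h2 : ∑ h ∈ (univ : Finset (ZMod p)).erase 0, 1 / ((-h).val : ℝ) =
      ∑ h ∈ (univ : Finset (ZMod p)).erase 0, 1 / (h.val : ℝ) := by
    refine Finset.sum_bij (fun h _ => -h) hneg ?_ ?_ ?_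
    · intro a _ b _ hab
      exact neg_injective hab
    · intro b hb
      exact ⟨-b, hneg b hb, neg_neg b⟩
    · intro a _
      rfl
  rw [h2]
  have h3 := Kc_val (p := p)
  linarith

open Classical Pool.Agent.H24.KS in
private lemma Kc_count {p : ℕ} [Fact p.Prime] (k : ZMod p) (α L : ℕ) :
    ((∑ i ∈ range L, #{s : (ZMod p)ˣ | (s : ZMod p) - k * ((s⁻¹ : (ZMod p)ˣ) : ZMod p) =
      ((α + 1 * i : ℕ) : ZMod p)} : ℕ) : ℂ) * (p : ℂ) =
      ∑ h : ZMod p, Kl p h (-(h * k)) * AP p 1 α L h := by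
  have e1 : ∀ h : ZMod p, Kl p h (-(h * k)) * AP p 1 α L h =
      ∑ i ∈ range L, ∑ u : (ZMod p)ˣ, (ZMod.stdAddChar (h *
        ((u : ZMod p) - k * ((u⁻¹ : (ZMod p)ˣ) : ZMod p) - ((α + 1 * i : ℕ) : ZMod p))) : ℂ) := by
    intro h
    unfold AP
    rw [mul_sum]
    refine sum_congr rfl fun i _ => ?_
    unfold Kl
    rw [sum_mul]
    refine sum_congr rfl fun u _ => ?_
    rw [← AddChar.map_add_eq_mul]
    congr 1
    ring
  simp_rw [e1]
  rw [sum_comm]
  push_cast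
  rw [sum_mul]
  refine sum_congr rfl fun i _ => ?_
  rw [sum_comm]
  simp_rw [KlAux.sum_char]
  rw [Finset.sum_ite, sum_const, sum_const_zero, add_zero, nsmul_eq_mul]
  congr 3
  ext u
  simp only [mem_filter, mem_univ, true_and]
  push_cast
  exact (sub_eq_zero (G := ZMod p)).symm

open Classical in
theorem hyp_interval {p : ℕ} [Fact p.Prime] (k : ZMod p) (A : ℤ) (L : ℕ) (hL : L ≤ p) :
    (#{s : (ZMod p)ˣ | ∃ i < L, (s : ZMod p) - k * ((s⁻¹ : (ZMod p)ˣ) : ZMod p) =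
      (A : ZMod p) + ((i : ℕ) : ZMod p)} : ℝ) ≤ L + Er p := by
  have hp : p.Prime := Fact.out
  have hp0 : (0 : ℝ) < p := by exact_mod_cast hp.pos
  obtain ⟨α, hα⟩ : ∃ α : ℕ, (α : ZMod p) = (A : ZMod p) := ⟨(A : ZMod p).val, ZMod.natCast_zmod_val _⟩
  obtain ⟨M, hM⟩ : ∃ M : ℕ, M = ∑ i ∈ range L, #{s : (ZMod p)ˣ | (s : ZMod p) -
      k * ((s⁻¹ : (ZMod p)ˣ) : ZMod p) = ((α + 1 * i : ℕ) : ZMod p)} := ⟨_, rfl⟩
  have h1 : #{s : (ZMod p)ˣ | ∃ i < L, (s : ZMod p) - k * ((s⁻¹ : (ZMod p)ˣ) : ZMod p) =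
      (A : ZMod p) + ((i : ℕ) : ZMod p)} ≤ M := by
    rw [hM]
    refine le_trans (card_le_card ?_) card_biUnion_le
    intro s hs
    obtain ⟨-, i, hi, h⟩ := mem_filter.1 hs
    refine mem_biUnion.2 ⟨i, mem_range.2 hi, mem_filter.2 ⟨mem_univ _, ?_⟩⟩
    rw [h, ← hα]
    push_cast
    ring
  have hcount := Kc_count k α L
  rw [← hM, ← Finset.add_sum_erase _ _ (mem_univ (0 : ZMod p))] at hcount
  have h0 : ‖Pool.Agent.H24.KS.Kl p 0 (-(0 * k)) * Pool.Agent.H24.KS.AP p 1 α L 0‖ ≤ p * L := by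
    rw [zero_mul, neg_zero, Pool.Agent.H24.KS.Kl_zero, Pool.Agent.H24.KS.AP_zero, norm_mul,
      Complex.norm_natCast, Complex.norm_natCast]
    have : (p.totient : ℝ) ≤ p := by exact_mod_cast Nat.totient_le p
    exact mul_le_mul_of_nonneg_right this (Nat.cast_nonneg _)
  obtain ⟨Y, hY⟩ : ∃ Y : ℝ, Y = (2 * (p : ℝ)) ^ ((3 : ℝ) / 4) := ⟨_, rfl⟩
  have hY0 : 0 ≤ Y := by rw [hY]; positivity
  have h2 : ‖∑ h ∈ (univ : Finset (ZMod p)).erase 0,
      Pool.Agent.H24.KS.Kl p h (-(h * k)) * Pool.Agent.H24.KS.AP p 1 α L h‖ ≤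
      Y * p * (1 + Real.log p) := by
    calc ‖∑ h ∈ (univ : Finset (ZMod p)).erase 0,
        Pool.Agent.H24.KS.Kl p h (-(h * k)) * Pool.Agent.H24.KS.AP p 1 α L h‖
        ≤ ∑ h ∈ (univ : Finset (ZMod p)).erase 0,
          Y * p * (1 / (2 * (h.valMinAbs.natAbs : ℝ))) := by
          refine (norm_sum_le _ _).trans (sum_le_sum fun h hh => ?_)
          have hne : h ≠ 0 := (mem_erase.1 hh).1
          have k1 := Pool.Agent.H24.KS.Kl_le' p hp.prime.squarefree h (-(h * k))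
          rw [Kc_nz hne, hp.divisors, Finset.card_pair hp.one_lt.ne, Nat.cast_one, one_mul] at k1
          have e2 : (p : ℝ) * ((2 : ℕ) : ℝ) = 2 * p := by push_cast; ring
          rw [e2, ← hY] at k1
          have k2 := Pool.Agent.H24.KS.AP_le p 1 α L h (by rw [Nat.cast_one, mul_one]; exact hne)
          rw [Nat.cast_one, mul_one] at k2
          rw [norm_mul]
          calc _ ≤ Y * (p / (2 * (h.valMinAbs.natAbs : ℝ))) :=
                mul_le_mul k1 k2 (norm_nonneg _) hY0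
            _ = _ := by ring
      _ = Y * p * ∑ h ∈ (univ : Finset (ZMod p)).erase 0,
          1 / (2 * (h.valMinAbs.natAbs : ℝ)) := by rw [mul_sum]
      _ ≤ Y * p * (1 + Real.log p) :=
          mul_le_mul_of_nonneg_left Kc_dist (by positivity)
  have h3 := congrArg norm hcount
  rw [norm_mul, Complex.norm_natCast, Complex.norm_natCast] at h3
  have h4 : (M : ℝ) * p ≤ (L + Er p) * p := by
    rw [h3]
    refine (norm_add_le _ _).trans ((add_le_add h0 h2).trans (le_of_eq ?_))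
    unfold Er
    rw [← hY]
    ring
  have h5 : (M : ℝ) ≤ L + Er p := le_of_mul_le_mul_right h4 hp0
  exact (by exact_mod_cast h1 : (#{s : (ZMod p)ˣ | ∃ i < L, (s : ZMod p) -
    k * ((s⁻¹ : (ZMod p)ˣ) : ZMod p) = (A : ZMod p) + ((i : ℕ) : ZMod p)} : ℝ) ≤ M).trans h5

end H59.CM
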