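import Pool.Agent.H59.CM.Kc
import Pool.Agent.H59.CM.Cls

/-!
# Module Kd: the diagonal classes in an interval of integers

PROOF. (1) `J ≤ p`: the residues of `u - e`, `u ∈ Ico A (A + J)`, are distinct. Let `Z` be the set of the residues
`c ∈ DD p k` of this form, `N` the number of units `s` with `s - k s⁻¹` of this form. For `c ∈ Z` with `c = s - k / s`, `s` and
`-k / s` are preimages of `c`; they are different unless `s ^ 2 = -k`, and there are at most two such `s`. So
`2 * #Z ≤ N + 2` and `hyp_interval` (start `A - e`, take an integer representative of `e`) gives `#Z ≤ (J + Er p) / 2 + 1`, `≤ kap p * J + Eg p`.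
(2) General `J = m p + L`, `L < p`: `m` full periods, each contains exactly `#(DD p k) ≤ (p + 1) / 2` elements (`cls_card`), and
`(p + 1) / 2 = kap p * p`; the rest by (1). Induction on `m` (or on `J`: if `J ≥ p` split off the first `p` integers).
-/

set_option autoImplicit false

namespace H59.CM

open Finset

open Classical in
/-- the values of `s - k / s` -/
noncomputable def DD (p : ℕ) [Fact p.Prime] (k : ZMod p) : Finset (ZMod p) :=
  (univ.erase (0 : ZMod p)).image fun s => s - k * s⁻¹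

/-- the density of the classes -/
noncomputable def kap (p : ℕ) : ℝ := (1 + 1 / (p : ℝ)) / 2

/-- the error term for the classes -/
noncomputable def Eg (p : ℕ) : ℝ := Er p / 2 + 1

private lemma Kd_sq {p : ℕ} [Fact p.Prime] (a : ZMod p) :
    #{s : (ZMod p)ˣ | (s : ZMod p) ^ 2 = a} ≤ 2 := by
  classical
  by_cases h : ∃ s0 : (ZMod p)ˣ, (s0 : ZMod p) ^ 2 = a
  · obtain ⟨s0, hs0⟩ := h
    have hsub : ({s : (ZMod p)ˣ | (s : ZMod p) ^ 2 = a} : Finset (ZMod p)ˣ) ⊆ {s0, -s0} := by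
      intro s hs
      rw [mem_filter] at hs
      have h0 : ((s : ZMod p) - s0) * ((s : ZMod p) + s0) = 0 := by
        linear_combination hs.2 - hs0
      rw [mem_insert, mem_singleton]
      rcases mul_eq_zero.mp h0 with h1 | h1
      · left
        exact Units.ext (sub_eq_zero.mp h1)
      · right
        refine Units.ext ?_
        rw [Units.val_neg]
        exact eq_neg_of_add_eq_zero_left h1
    exact (card_le_card hsub).trans card_le_two
  · have : ({s : (ZMod p)ˣ | (s : ZMod p) ^ 2 = a} : Finset (ZMod p)ˣ) = ∅ := by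
      rw [filter_eq_empty_iff]
      intro s _ hs
      exact h ⟨s, hs⟩
    rw [this]
    simp

private lemma Kd_inj {p : ℕ} (e : ZMod p) (A : ℤ) {J : ℕ} (hJ : J ≤ p) {u v : ℤ}
    (hu : u ∈ Finset.Ico A (A + (J : ℤ))) (hv : v ∈ Finset.Ico A (A + (J : ℤ)))
    (h : ((u : ℤ) : ZMod p) - e = ((v : ℤ) : ZMod p) - e) : u = v := by
  rw [Finset.mem_Ico] at hu hv
  have h1 : ((u : ℤ) : ZMod p) = ((v : ℤ) : ZMod p) := sub_left_injective h
  have h2 : ((p : ℕ) : ℤ) ∣ u - v := by
    rw [← ZMod.intCast_zmod_eq_zero_iff_dvd]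
    push_cast
    rw [h1, sub_self]
  have h3 : |u - v| < (p : ℤ) := by
    rw [abs_lt]
    have : (J : ℤ) ≤ p := by exact_mod_cast hJ
    constructor <;> linarith [hu.1, hu.2, hv.1, hv.2]
  have h4 := Int.eq_zero_of_abs_lt_dvd h2 h3
  linarith

open Classical in
private lemma Kd_small {p : ℕ} [Fact p.Prime] (k : ZMod p) (hk : k ≠ 0) (e : ZMod p) (A : ℤ) (J : ℕ)
    (hJ : J ≤ p) :
    (#{u ∈ Finset.Ico A (A + (J : ℤ)) | (((u : ℤ) : ZMod p) - e) ∈ DD p k} : ℝ) ≤
      ((J : ℝ) + Er p) / 2 + 1 := by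
  set S : Finset ℤ := {u ∈ Finset.Ico A (A + (J : ℤ)) | (((u : ℤ) : ZMod p) - e) ∈ DD p k} with hS
  set Z : Finset (ZMod p) := S.image fun u => ((u : ℤ) : ZMod p) - e with hZ
  have hSZ : #Z = #S := by
    rw [hZ]
    refine card_image_of_injOn ?_
    intro u hu v hv h
    rw [hS, mem_coe, mem_filter] at hu hv
    exact Kd_inj e A hJ hu.1 hv.1 h
  set A' : ℤ := A - (e.val : ℤ) with hA'
  have hA'c : ((A' : ℤ) : ZMod p) = ((A : ℤ) : ZMod p) - e := by
    rw [hA']
    push_cast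
    rw [ZMod.natCast_zmod_val]
  let g : (ZMod p)ˣ → ZMod p := fun s => (s : ZMod p) - k * ((s⁻¹ : (ZMod p)ˣ) : ZMod p)
  set T : Finset (ZMod p)ˣ := {s : (ZMod p)ˣ | ∃ i < J, (s : ZMod p) -
    k * ((s⁻¹ : (ZMod p)ˣ) : ZMod p) = ((A' : ℤ) : ZMod p) + ((i : ℕ) : ZMod p)} with hT
  have hTc : (#T : ℝ) ≤ J + Er p := hyp_interval k A' J hJ
  have hTm : ∀ s : (ZMod p)ˣ, s ∈ T ↔ ∃ i < J, g s = ((A' : ℤ) : ZMod p) + ((i : ℕ) : ZMod p) := by
    intro s
    rw [hT, mem_filter]
    exact ⟨fun h => h.2, fun h => ⟨mem_univ _, h⟩⟩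
  have hgD : ∀ s : (ZMod p)ˣ, g s ∈ DD p k := by
    intro s
    unfold DD
    rw [mem_image]
    refine ⟨(s : ZMod p), mem_erase.2 ⟨s.ne_zero, mem_univ _⟩, ?_⟩
    show (s : ZMod p) - k * (s : ZMod p)⁻¹ = (s : ZMod p) - k * ((s⁻¹ : (ZMod p)ˣ) : ZMod p)
    rw [Units.val_inv_eq_inv_val]
  have hTZ : ∀ s ∈ T, g s ∈ Z := by
    intro s hs
    obtain ⟨i, hi, h⟩ := (hTm s).1 hs
    have h1 : ((A + (i : ℤ) : ℤ) : ZMod p) - e = g s := by
      rw [h, hA'c]
      push_cast
      ring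
    rw [hZ, mem_image]
    refine ⟨A + (i : ℤ), ?_, h1⟩
    rw [hS, mem_filter, Finset.mem_Ico]
    refine ⟨⟨by omega, by omega⟩, ?_⟩
    rw [h1]
    exact hgD s
  set Q : Finset (ZMod p) := ({s : (ZMod p)ˣ | (s : ZMod p) ^ 2 = -k} : Finset (ZMod p)ˣ).image g with hQ
  have hQc : #Q ≤ 2 := card_image_le.trans (Kd_sq (-k))
  have h1 : #T = ∑ c ∈ Z, #{s ∈ T | g s = c} := card_eq_sum_card_fiberwise hTZ
  have h2 : ∀ c ∈ Z, 2 ≤ #{s ∈ T | g s = c} + (if c ∈ Q then 1 else 0) := by
    intro c hc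
    rw [hZ, mem_image] at hc
    obtain ⟨u, hu, hc⟩ := hc
    rw [hS, mem_filter, Finset.mem_Ico] at hu
    obtain ⟨⟨hu1, hu2⟩, hu3⟩ := hu
    rw [hc] at hu3
    unfold DD at hu3
    rw [mem_image] at hu3
    obtain ⟨s0, hs0, hs⟩ := hu3
    have hs00 : s0 ≠ 0 := (mem_erase.1 hs0).1
    set s : (ZMod p)ˣ := Units.mk0 s0 hs00 with hsd
    have hgs : g s = c := by
      show (s : ZMod p) - k * ((s⁻¹ : (ZMod p)ˣ) : ZMod p) = c
      rw [Units.val_inv_eq_inv_val, hsd, Units.val_mk0]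
      exact hs
    have hmemT : ∀ t : (ZMod p)ˣ, g t = c → t ∈ T := by
      intro t ht
      rw [hTm]
      refine ⟨(u - A).toNat, by omega, ?_⟩
      have h4 : (((u - A).toNat : ℕ) : ZMod p) = ((u : ℤ) : ZMod p) - ((A : ℤ) : ZMod p) := by
        have h5 : (((u - A).toNat : ℕ) : ℤ) = u - A := Int.toNat_of_nonneg (by omega)
        have h6 := congrArg (fun z : ℤ => (z : ZMod p)) h5
        push_cast at h6
        exact_mod_cast h6
      rw [ht, h4, hA'c, ← hc]
      ring
    by_cases hsk : (s : ZMod p) ^ 2 = -k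
    · have : c ∈ Q := by
        rw [hQ, ← hgs]
        exact mem_image_of_mem _ (by simp [hsk])
      rw [if_pos this]
      have : 1 ≤ #{t ∈ T | g t = c} := card_pos.mpr ⟨s, by
        rw [mem_filter]
        exact ⟨hmemT s hgs, hgs⟩⟩
      omega
    · set s' : (ZMod p)ˣ := Units.mk0 (-k * s0⁻¹) (mul_ne_zero (neg_ne_zero.mpr hk) (inv_ne_zero hs00))
        with hs'd
      have hgs' : g s' = c := by
        show (s' : ZMod p) - k * ((s'⁻¹ : (ZMod p)ˣ) : ZMod p) = c
        rw [Units.val_inv_eq_inv_val, hs'd, Units.val_mk0, ← hs]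
        field_simp
        ring
      have hne : s ≠ s' := by
        intro h
        apply hsk
        have h5 : s0 = -k * s0⁻¹ := by
          have := congrArg (fun z : (ZMod p)ˣ => (z : ZMod p)) h
          simpa [hsd, hs'd] using this
        have : s0 * s0 = -k * s0⁻¹ * s0 := by rw [← h5]
        rw [mul_assoc, inv_mul_cancel₀ hs00, mul_one] at this
        rw [pow_two]
        exact this
      have hsub : ({s, s'} : Finset (ZMod p)ˣ) ⊆ ({t ∈ T | g t = c} : Finset (ZMod p)ˣ) := by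
        intro t ht
        rw [mem_insert, mem_singleton] at ht
        rw [mem_filter]
        rcases ht with rfl | rfl
        · exact ⟨hmemT _ hgs, hgs⟩
        · exact ⟨hmemT _ hgs', hgs'⟩
      have := card_le_card hsub
      rw [card_pair hne] at this
      omega
  have h3 : ∑ c ∈ Z, 2 ≤ ∑ c ∈ Z, (#{s ∈ T | g s = c} + (if c ∈ Q then 1 else 0)) := sum_le_sum h2
  rw [sum_add_distrib, ← h1, sum_const, smul_eq_mul, ← card_filter] at h3
  have h4 : #{c ∈ Z | c ∈ Q} ≤ #Q := by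
    apply card_le_card
    intro c hc
    exact (mem_filter.mp hc).2
  have h5 : #Z * 2 ≤ #T + 2 := by omega
  have h6 : (#Z : ℝ) * 2 ≤ (#T : ℝ) + 2 := by exact_mod_cast h5
  rw [← hSZ]
  linarith

open Classical in
theorem win_card {p : ℕ} [Fact p.Prime] (k : ZMod p) (hk : k ≠ 0) (e : ZMod p) (A : ℤ) (J : ℕ) :
    (#{u ∈ Finset.Ico A (A + (J : ℤ)) | (((u : ℤ) : ZMod p) - e) ∈ DD p k} : ℝ) ≤ kap p * J + Eg p := by
  have hp0 : (0 : ℝ) < p := by exact_mod_cast (Fact.out : p.Prime).pos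
  induction J using Nat.strong_induction_on generalizing A with
  | _ J ih =>
    by_cases hJ : J ≤ p
    · have h1 := Kd_small k hk e A J hJ
      have h2 : (0 : ℝ) ≤ J := Nat.cast_nonneg _
      have h3 : (J : ℝ) / 2 ≤ kap p * J := by
        unfold kap
        have : 0 ≤ 1 / (p : ℝ) * J := by positivity
        linarith
      unfold Eg
      linarith
    · push Not at hJ
      obtain ⟨J', rfl⟩ : ∃ J', J = p + J' := ⟨J - p, by omega⟩
      have hp1 : 0 < p := (Fact.out : p.Prime).pos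
      have h1 := ih J' (by omega) (A + (p : ℤ))
      have h2 : #{u ∈ Finset.Ico A (A + (p : ℤ)) | (((u : ℤ) : ZMod p) - e) ∈ DD p k} ≤ #(DD p k) := by
        refine card_le_card_of_injOn (fun u => ((u : ℤ) : ZMod p) - e) ?_ ?_
        · intro u hu
          rw [mem_coe, mem_filter] at hu
          exact hu.2
        · intro u hu v hv h
          rw [mem_coe, mem_filter] at hu hv
          exact Kd_inj e A le_rfl hu.1 hv.1 h
      have h3 : 2 * #(DD p k) ≤ p + 1 := by
        have := cls_card k hk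
        unfold DD
        convert this
      have h4 : Finset.Ico A (A + ((p + J' : ℕ) : ℤ)) =
          Finset.Ico A (A + (p : ℤ)) ∪ Finset.Ico (A + (p : ℤ)) (A + (p : ℤ) + (J' : ℤ)) := by
        rw [Finset.Ico_union_Ico_eq_Ico (by omega) (by omega)]
        push_cast
        rw [add_assoc]
      rw [h4, filter_union]
      have h5 : (#(({u ∈ Finset.Ico A (A + (p : ℤ)) | (((u : ℤ) : ZMod p) - e) ∈ DD p k}) ∪
          ({u ∈ Finset.Ico (A + (p : ℤ)) (A + (p : ℤ) + (J' : ℤ)) | (((u : ℤ) : ZMod p) - e) ∈ DD p k})) : ℝ)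
          ≤ (#{u ∈ Finset.Ico A (A + (p : ℤ)) | (((u : ℤ) : ZMod p) - e) ∈ DD p k} : ℝ) +
            (#{u ∈ Finset.Ico (A + (p : ℤ)) (A + (p : ℤ) + (J' : ℤ)) | (((u : ℤ) : ZMod p) - e) ∈ DD p k} : ℝ) := by
        exact_mod_cast card_union_le _ _
      have h6 : (#{u ∈ Finset.Ico A (A + (p : ℤ)) | (((u : ℤ) : ZMod p) - e) ∈ DD p k} : ℝ) ≤ kap p * p := by
        have h7 : (2 : ℝ) * (#{u ∈ Finset.Ico A (A + (p : ℤ)) | (((u : ℤ) : ZMod p) - e) ∈ DD p k} : ℝ) ≤
            p + 1 := by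
          have : 2 * #{u ∈ Finset.Ico A (A + (p : ℤ)) | (((u : ℤ) : ZMod p) - e) ∈ DD p k} ≤ p + 1 := by
            omega
          exact_mod_cast this
        have h8 : kap p * p = ((p : ℝ) + 1) / 2 := by
          unfold kap
          field_simp
        rw [h8]
        linarith
      have h9 : kap p * ((p + J' : ℕ) : ℝ) = kap p * p + kap p * J' := by
        push_cast
        ring
      rw [h9]
      linarith

end H59.CM
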