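import Pool.Agent.H59.CM.Defs

/-!
# Module Lin: from cells to pairs of natural numbers

PROOF. `T` = image of `S` under `q ↦ ((q.1 : ℕ), (q.2 : ℕ))` (injective, `Fin.ext`), so `#T = #S`.
If one of the four numbers is at least `3`, three distinct elements `q, r, s` of the filter
(`Finset.two_lt_card`) come from three distinct cells of `S`; the determinant of them is zero:
row: `y`-differences are `0`; column: `x`-differences are `0`; diagonal: `x - y` constant, so
`r.1 - q.1 = r.2 - q.2`, `s.1 - q.1 = s.2 - q.2`; antidiagonal: `r.1 - q.1 = -(r.2 - q.2)`, etc.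
-/

set_option autoImplicit false

namespace H59.CM

open Finset
open H59.N3 (Cell NoThree det)

private def linφ {n : ℕ} (c : Cell n) : ℕ × ℕ := (((c.1 : Fin n) : ℕ), ((c.2 : Fin n) : ℕ))

private lemma linφ_inj {n : ℕ} : Function.Injective (linφ (n := n)) := by
  intro a b h
  unfold linφ at h
  rw [Prod.mk.injEq] at h
  exact Prod.ext (Fin.ext h.1) (Fin.ext h.2)

private lemma lin_key {n : ℕ} (S : Finset (Cell n)) (hS : NoThree S) (P : ℕ × ℕ → Prop)
    [DecidablePred P]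
    (hP : ∀ a b c : ℕ × ℕ, P a → P b → P c →
      ((b.1 : ℤ) - (a.1 : ℤ)) * ((c.2 : ℤ) - (a.2 : ℤ)) -
        ((b.2 : ℤ) - (a.2 : ℤ)) * ((c.1 : ℤ) - (a.1 : ℤ)) = 0) :
    #{q ∈ S.image linφ | P q} ≤ 2 := by
  by_contra hlt
  rw [not_le, Finset.two_lt_card] at hlt
  obtain ⟨a, ha, b, hb, c, hc, hab, hac, hbc⟩ := hlt
  rw [Finset.mem_filter, Finset.mem_image] at ha hb hc
  obtain ⟨⟨a', ha', rfl⟩, ha2⟩ := ha
  obtain ⟨⟨b', hb', rfl⟩, hb2⟩ := hb
  obtain ⟨⟨c', hc', rfl⟩, hc2⟩ := hc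
  exact hS a' ha' b' hb' c' hc' (fun h => hab (congrArg _ h)) (fun h => hac (congrArg _ h))
    (fun h => hbc (congrArg _ h)) (hP _ _ _ ha2 hb2 hc2)

theorem exists_four {n : ℕ} (S : Finset (Cell n)) (hS : NoThree S) :
    ∃ T : Finset (ℕ × ℕ), Four n T ∧ #T = #S ∧
      ∀ q ∈ T, ∃ c ∈ S, q = (((c.1 : Fin n) : ℕ), ((c.2 : Fin n) : ℕ)) := by
  refine ⟨S.image linφ, ⟨?_, ?_, ?_, ?_, ?_⟩, Finset.card_image_of_injective S linφ_inj, ?_⟩
  · intro q hq
    rw [Finset.mem_image] at hq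
    obtain ⟨c, -, rfl⟩ := hq
    exact ⟨c.1.2, c.2.2⟩
  · intro y
    refine lin_key S hS _ ?_
    intro a b c ha hb hc
    simp only [ha, hb, hc]
    ring
  · intro x
    refine lin_key S hS _ ?_
    intro a b c ha hb hc
    simp only [ha, hb, hc]
    ring
  · intro u
    refine lin_key S hS _ ?_
    intro a b c ha hb hc
    have h1 : (a.1 : ℤ) = a.2 + u := by linarith
    have h2 : (b.1 : ℤ) = b.2 + u := by linarith
    have h3 : (c.1 : ℤ) = c.2 + u := by linarith
    rw [h1, h2, h3]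
    ring
  · intro v
    refine lin_key S hS _ ?_
    intro a b c ha hb hc
    have h1 : (a.1 : ℤ) = v - a.2 := by omega
    have h2 : (b.1 : ℤ) = v - b.2 := by omega
    have h3 : (c.1 : ℤ) = v - c.2 := by omega
    rw [h1, h2, h3]
    ring
  · intro q hq
    rw [Finset.mem_image] at hq
    obtain ⟨c, hc, rfl⟩ := hq
    exact ⟨c, hc, rfl⟩

end H59.CM
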