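import Mathlib

/-!
# Module NumC: the numbers

PROOF of `num_oth`. Put `q = n / p ≥ 1`, `n < (q + 1) p`. (i) `h2` in the form `t ≤ 2 n - q (p - 3)`. If `(q + 1) p ≤ 4 n / 3` use
`h1`: `t ≤ (q + 1) p + 3 (q + 1)`. Otherwise `3 (q + 1) p > 4 n`, `q ≥ 1`, `2 q ≥ q + 1`, so `6 q p ≥ 3 (q + 1) p > 4 n`, `q p > 2 n / 3`
and `h2` gives `t ≤ 2 n - q p + 3 q < 4 n / 3 + 3 q`. (ii) `10 q (p - 3) ≥ 5 (q + 1) (p - 3)`, `2 p ≤ 5 (p - 3)` for `p ≥ 5`, so
`10 q (p - 3) ≥ 2 (q + 1) p > 2 n`, `q (p - 3) > n / 5`.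
PROOF of `num_hyp`. `√21 ≤ 4.5826`. If `p ≤ 7` (or `p ≤ 10`) use `h0`: `p q > n - p`, so `t ≤ 2 n - 2 q < 2 n - 2 n / p + 2 ≤ 1.8 n + 2`.
If `11 ≤ p ≤ n / 5` use `h3`: `1.1 n / p + 1.04 p ≤ max` of the values at the ends `p = 11` and `p = n / 5` (convex in `p`:
`(p - 11) (n / 5 - p) ≥ 0` gives `1.1 n / p + c p` bounds after multiplication by `p`): at most `0.21 n + 12`. If `5 p ≥ n`, `p < n`:
`Q = (n + p - 1) / p ≤ n / p + 1` and `n / p ≤ 5`, so `h2`: `t ≤ 2 n - p - 2 q + 4 (q + 1) - 5 = 2 n - p + 2 q - 1 ≤ 1.8 n + 9`.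
If `n = p`: `h0` gives `t ≤ 2 n - 2` only; use `h4`.
-/

set_option autoImplicit false

namespace H59.CM

private lemma NumC_div (n p : ℕ) (h5 : 5 ≤ p) (hpn : p ≤ n) :
    1 ≤ n / p ∧ n / p * p ≤ n ∧ n < (n / p + 1) * p := by
  have hp : 0 < p := by omega
  refine ⟨(Nat.one_le_div_iff hp).2 hpn, Nat.div_mul_le_self n p, ?_⟩
  have := Nat.lt_mul_div_succ n hp
  rwa [mul_comm] at this

theorem num_oth (n p t : ℕ) (h5 : 5 ≤ p) (hpn : p ≤ n) (h1 : t ≤ (n / p + 1) * (p + 3))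
    (h2 : t + n / p * (p - 3) ≤ 2 * n) :
    3 * t ≤ 4 * n + 9 * (n / p + 1) ∧ 5 * t ≤ 9 * n := by
  obtain ⟨hq1, hq2, hq3⟩ := NumC_div n p h5 hpn
  generalize n / p = q at *
  obtain ⟨r, rfl⟩ := Nat.exists_eq_add_of_le h5
  have e1 : 5 + r - 3 = r + 2 := by omega
  rw [e1] at h2
  have h3 : (q + 1) * (5 + r) ≤ 2 * q * (5 + r) := Nat.mul_le_mul_right _ (by omega)
  have h4 : (q + 1) * (r + 2) ≤ 2 * q * (r + 2) := Nat.mul_le_mul_right _ (by omega)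
  have h5' : (q + 1) * (2 * (5 + r)) ≤ (q + 1) * (5 * (r + 2)) :=
    Nat.mul_le_mul_left _ (by omega)
  constructor
  · by_cases hc : 3 * ((q + 1) * (5 + r)) ≤ 4 * n
    · linarith
    · push Not at hc
      linarith
  · linarith

theorem num_hyp (n p t : ℕ) (h5 : 5 ≤ p) (hpn : p ≤ n) (h0 : t + 2 * (n / p) ≤ 2 * n)
    (h2 : p < n → t + p + 2 * (n / p) + 5 ≤ 2 * n + 4 * ((n + p - 1) / p))
    (h3 : (t : ℝ) ≤ (Real.sqrt 21 - 3) * n + 1.1 * n / p + 1.04 * ((p : ℝ) + 1))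
    (h4 : n = p → t ≤ p) : 5 * t ≤ 9 * n + 65 := by
  obtain ⟨hq1, hq2, hq3⟩ := NumC_div n p h5 hpn
  rcases Nat.lt_or_ge p 11 with hp | hp
  · -- few residues
    generalize n / p = q at *
    have h6 : (q + 1) * p ≤ (q + 1) * 10 := Nat.mul_le_mul_left _ (by omega)
    omega
  rcases Nat.lt_or_ge n (5 * p) with hc | hc
  · rcases Nat.eq_or_lt_of_le hpn with he | hlt
    · have := h4 he.symm
      omega
    · have h6 := h2 hlt
      have h7 : (n + p - 1) / p ≤ n / p + 1 := by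
        calc (n + p - 1) / p ≤ (n + p) / p := Nat.div_le_div_right (by omega)
          _ = n / p + 1 := Nat.add_div_right n (by omega)
      have h8 : n / p < 5 := Nat.div_lt_of_lt_mul (by linarith)
      omega
  · -- the weights
    have hs : Real.sqrt 21 ≤ 4.5826 := by
      rw [Real.sqrt_le_left (by norm_num)]
      norm_num
    have hp0 : (0 : ℝ) < p := by
      have : 0 < p := by omega
      exact_mod_cast this
    have hpr : (11 : ℝ) ≤ p := by exact_mod_cast hp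
    have hcr : 5 * (p : ℝ) ≤ n := by exact_mod_cast hc
    have hn0 : (0 : ℝ) ≤ n := by positivity
    have h6 : (Real.sqrt 21 - 3) * n ≤ 1.5826 * n :=
      mul_le_mul_of_nonneg_right (by linarith) hn0
    have h7 : 1.1 * (n : ℝ) / p + 1.04 * ((p : ℝ) + 1) ≤ 0.2174 * n + 13 := by
      have h8 : 1.1 * (n : ℝ) / p ≤ 0.2174 * n + 13 - 1.04 * ((p : ℝ) + 1) := by
        rw [div_le_iff₀ hp0]
        nlinarith [mul_nonneg (sub_nonneg.2 hpr) (sub_nonneg.2 hcr), mul_nonneg hn0 hp0.le]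
      linarith
    have h9 : 5 * (t : ℝ) ≤ 9 * n + 65 := by linarith
    exact_mod_cast h9

end H59.CM
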