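import Pool.Agent.H59.CM.Defs

/-!
# Module Sqr: how often a quadratic polynomial is a square

PROOF. Let `N` be the set of the pairs `(t, z)` with `z ^ 2 = α t ^ 2 + β t + γ`.
(a) `#N ≤ p + 2`. If `N` is empty there is nothing to do. Otherwise take `(t0, z0) ∈ N`. The elements
with `t = t0` have `z = z0` or `z = -z0`. For `(t, z) ∈ N` with `t ≠ t0` put
`m = (z - z0) / (t - t0)`, `s = t - t0 ≠ 0`. From `(z0 + m s) ^ 2 = α (t0 + s) ^ 2 + β (t0 + s) + γ` and
`z0 ^ 2 = α t0 ^ 2 + β t0 + γ` one gets `s (m ^ 2 - α) = 2 α t0 + β - 2 z0 m`. If `m ^ 2 = α` then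
`β = 2 z0 m - 2 m ^ 2 t0`, `γ = z0 ^ 2 - α t0 ^ 2 - β t0 = (z0 - m t0) ^ 2` and `β ^ 2 - 4 α γ = 0`,
a contradiction. So `m ^ 2 ≠ α` and `s`, hence `(t, z)`, is determined by `m`: at most `p` such elements.
(b) `t ↦` fibre of `N` over `t`: it has at least two elements (`z` and `-z`) if the value is a nonzero
square and at least one element if the value is zero. The value is zero for at most two `t`
(if `α ≠ 0` a quadratic polynomial; if `α = 0` then `β ≠ 0`). So `2 * #{t | square} ≤ #N + 2 ≤ p + 4`,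
and `p` is odd.
-/

set_option autoImplicit false

namespace H59.CM

open Finset

open Classical in
private theorem Sqr_zero {p : ℕ} [Fact p.Prime] (α β γ : ZMod p)
    (h : β ^ 2 - 4 * α * γ ≠ 0) :
    #{t : ZMod p | α * t ^ 2 + β * t + γ = 0} ≤ 2 := by
  by_contra hc
  push Not at hc
  obtain ⟨a, ha, b, hb, c, hc', hab, hac, hbc⟩ := Finset.two_lt_card.mp hc
  simp only [mem_filter, mem_univ, true_and] at ha hb hc'
  have h1 : α * (a + b) + β = 0 := by
    have : (a - b) * (α * (a + b) + β) = 0 := by linear_combination ha - hb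
    rcases mul_eq_zero.mp this with h2 | h2
    · exact absurd (sub_eq_zero.mp h2) hab
    · exact h2
  have h2 : α * (a + c) + β = 0 := by
    have : (a - c) * (α * (a + c) + β) = 0 := by linear_combination ha - hc'
    rcases mul_eq_zero.mp this with h2 | h2
    · exact absurd (sub_eq_zero.mp h2) hac
    · exact h2
  have h3 : α = 0 := by
    have : (b - c) * α = 0 := by linear_combination h1 - h2
    rcases mul_eq_zero.mp this with h4 | h4
    · exact absurd (sub_eq_zero.mp h4) hbc
    · exact h4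
  have h4 : β = 0 := by
    rw [h3] at h1
    linear_combination h1
  apply h
  rw [h3, h4]
  ring

open Classical in
private theorem Sqr_far {p : ℕ} [Fact p.Prime] (α β γ : ZMod p)
    (h : β ^ 2 - 4 * α * γ ≠ 0) (t0 z0 : ZMod p)
    (h0 : z0 ^ 2 = α * t0 ^ 2 + β * t0 + γ) :
    #{q : ZMod p × ZMod p | q.2 ^ 2 = α * q.1 ^ 2 + β * q.1 + γ ∧ q.1 ≠ t0} ≤ p := by
  have hcard : #(univ : Finset (ZMod p)) = p := by
    rw [Finset.card_univ, ZMod.card]
  refine le_trans ?_ hcard.le
  have key : ∀ t z m : ZMod p, z ^ 2 = α * t ^ 2 + β * t + γ → t ≠ t0 →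
      (z - z0) / (t - t0) = m → z = z0 + m * (t - t0) ∧
        (t - t0) * (m ^ 2 - α) = 2 * α * t0 + β - 2 * z0 * m := by
    intro t z m hz ht hm
    have hs : t - t0 ≠ 0 := sub_ne_zero.mpr ht
    have h1 : z = z0 + m * (t - t0) := by
      rw [← hm, div_mul_cancel₀ _ hs]
      ring
    refine ⟨h1, ?_⟩
    have h2 : (t - t0) * ((t - t0) * (m ^ 2 - α) - (2 * α * t0 + β - 2 * z0 * m)) = 0 := by
      rw [h1] at hz
      linear_combination hz - h0
    rcases mul_eq_zero.mp h2 with h3 | h3
    · exact absurd h3 hs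
    · exact sub_eq_zero.mp h3
  apply Finset.card_le_card_of_injOn (fun q => (q.2 - z0) / (q.1 - t0))
  · intro q _
    exact mem_coe.mpr (mem_univ _)
  · rintro ⟨t, z⟩ hq ⟨t', z'⟩ hq' he
    simp only [mem_coe, mem_filter, mem_univ, true_and] at hq hq'
    simp only at he
    obtain ⟨hz, ht⟩ := hq
    obtain ⟨hz', ht'⟩ := hq'
    obtain ⟨a1, a2⟩ := key t z _ hz ht rfl
    obtain ⟨b1, b2⟩ := key t' z' _ hz' ht' he.symm
    generalize (z - z0) / (t - t0) = m at a1 a2 b1 b2
    have hm : m ^ 2 - α ≠ 0 := by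
      intro hm
      rw [hm, mul_zero] at a2
      apply h
      have e1 : β = 2 * z0 * m - 2 * α * t0 := by linear_combination -a2
      have e2 : α = m ^ 2 := by linear_combination -hm
      have e3 : γ = (z0 - m * t0) ^ 2 := by
        have : γ = z0 ^ 2 - α * t0 ^ 2 - β * t0 := by linear_combination -h0
        rw [this, e1, e2]
        ring
      rw [e3, e1, e2]
      ring
    have h5 : t - t0 = t' - t0 := by
      apply mul_right_cancel₀ hm
      rw [a2, b2]
    have h6 : t = t' := sub_left_inj.mp h5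
    subst h6
    rw [a1, b1]

open Classical in
private theorem Sqr_near {p : ℕ} [Fact p.Prime] (α β γ : ZMod p) (t0 z0 : ZMod p)
    (h0 : z0 ^ 2 = α * t0 ^ 2 + β * t0 + γ) :
    #{q : ZMod p × ZMod p | q.2 ^ 2 = α * q.1 ^ 2 + β * q.1 + γ ∧ ¬ q.1 ≠ t0} ≤ 2 := by
  have hsub : ({q : ZMod p × ZMod p | q.2 ^ 2 = α * q.1 ^ 2 + β * q.1 + γ ∧ ¬ q.1 ≠ t0} :
      Finset (ZMod p × ZMod p)) ⊆ {(t0, z0), (t0, -z0)} := by
    rintro ⟨t, z⟩ hq
    simp only [mem_filter, mem_univ, true_and, not_not] at hq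
    obtain ⟨hz, ht⟩ := hq
    subst ht
    have h1 : (z - z0) * (z + z0) = 0 := by linear_combination hz - h0
    rcases mul_eq_zero.mp h1 with h2 | h2
    · have : z = z0 := sub_eq_zero.mp h2
      subst this
      simp
    · have : z = -z0 := eq_neg_of_add_eq_zero_left h2
      subst this
      simp
  exact (card_le_card hsub).trans Finset.card_le_two

open Classical in
theorem sq_card {p : ℕ} [Fact p.Prime] (hp : p ≠ 2) (α β γ : ZMod p)
    (h : β ^ 2 - 4 * α * γ ≠ 0) :
    2 * #{t : ZMod p | IsSquare (α * t ^ 2 + β * t + γ)} ≤ p + 3 := by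
  have hpp : p.Prime := Fact.out
  have hodd : p % 2 = 1 := by
    rcases hpp.eq_two_or_odd with h1 | h1
    · exact absurd h1 hp
    · exact h1
  have h2 : (2 : ZMod p) ≠ 0 := by
    intro h2
    have h3 : ((2 : ℕ) : ZMod p) = 0 := by exact_mod_cast h2
    rw [ZMod.natCast_eq_zero_iff] at h3
    have := Nat.le_of_dvd (by norm_num) h3
    have := hpp.two_le
    omega
  -- the number of pairs
  have hN : #{q : ZMod p × ZMod p | q.2 ^ 2 = α * q.1 ^ 2 + β * q.1 + γ} ≤ p + 2 := by
    by_cases hne : ∃ t0 z0 : ZMod p, z0 ^ 2 = α * t0 ^ 2 + β * t0 + γ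
    · obtain ⟨t0, z0, h0⟩ := hne
      have e1 := Sqr_far α β γ h t0 z0 h0
      have e2 := Sqr_near α β γ t0 z0 h0
      have e3 := Finset.card_filter_add_card_filter_not
        (s := ({q : ZMod p × ZMod p | q.2 ^ 2 = α * q.1 ^ 2 + β * q.1 + γ} : Finset _))
        (fun q : ZMod p × ZMod p => q.1 ≠ t0)
      rw [Finset.filter_filter, Finset.filter_filter] at e3
      omega
    · have : ({q : ZMod p × ZMod p | q.2 ^ 2 = α * q.1 ^ 2 + β * q.1 + γ} : Finset _) = ∅ := by
        apply Finset.filter_eq_empty_iff.mpr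
        intro q _ hq
        exact hne ⟨q.1, q.2, hq⟩
      rw [this]
      simp
  have hfib : #{q : ZMod p × ZMod p | q.2 ^ 2 = α * q.1 ^ 2 + β * q.1 + γ} =
      ∑ t : ZMod p, #{z : ZMod p | z ^ 2 = α * t ^ 2 + β * t + γ} := by
    rw [Finset.card_filter, Fintype.sum_prod_type]
    apply Finset.sum_congr rfl
    intro t _
    rw [Finset.card_filter]
  have hS : #{t : ZMod p | IsSquare (α * t ^ 2 + β * t + γ)} =
      ∑ t : ZMod p, (if IsSquare (α * t ^ 2 + β * t + γ) then 1 else 0) := by
    rw [Finset.card_filter]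
  have hZ : #{t : ZMod p | α * t ^ 2 + β * t + γ = 0} =
      ∑ t : ZMod p, (if α * t ^ 2 + β * t + γ = 0 then 1 else 0) := by
    rw [Finset.card_filter]
  have hle : 2 * #{t : ZMod p | IsSquare (α * t ^ 2 + β * t + γ)} ≤
      #{q : ZMod p × ZMod p | q.2 ^ 2 = α * q.1 ^ 2 + β * q.1 + γ} +
      #{t : ZMod p | α * t ^ 2 + β * t + γ = 0} := by
    rw [hfib, hS, hZ, Finset.mul_sum, ← Finset.sum_add_distrib]
    apply Finset.sum_le_sum
    intro t _
    by_cases hsq : IsSquare (α * t ^ 2 + β * t + γ)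
    · rw [if_pos hsq]
      obtain ⟨z, hz⟩ := hsq
      have hmem : z ∈ ({z : ZMod p | z ^ 2 = α * t ^ 2 + β * t + γ} : Finset (ZMod p)) := by
        simp only [mem_filter, mem_univ, true_and]
        rw [hz]
        ring
      by_cases hz0 : z = 0
      · have hval : α * t ^ 2 + β * t + γ = 0 := by
          rw [hz, hz0]
          ring
        rw [if_pos hval]
        have := Finset.card_pos.mpr ⟨z, hmem⟩
        omega
      · have hmem2 : -z ∈ ({z : ZMod p | z ^ 2 = α * t ^ 2 + β * t + γ} : Finset (ZMod p)) := by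
          simp only [mem_filter, mem_univ, true_and]
          rw [hz]
          ring
        have hne : z ≠ -z := by
          intro he
          have : 2 * z = 0 := by linear_combination he
          rcases mul_eq_zero.mp this with h3 | h3
          · exact h2 h3
          · exact hz0 h3
        have := Finset.one_lt_card.mpr ⟨z, hmem, -z, hmem2, hne⟩
        omega
    · rw [if_neg hsq]
      omega
  have hz2 := Sqr_zero α β γ h
  omega

end H59.CM
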