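import Pool.Agent.H59.CM.Rows
import Pool.Agent.H59.CM.Sqr

/-!
# Module Oth: conics which are not axis-parallel hyperbolas, and the normal form of the others

PROOF of `oth_row`. If `qf … x y = 0` then
`(2 A x + B y + D) ^ 2 = (B y + D) ^ 2 - 4 A (C y ^ 2 + E y + F) = α y ^ 2 + β y + γ` with
`α = B ^ 2 - 4 A C`, `β = 2 B D - 4 A E`, `γ = D ^ 2 - 4 A F`, and `β ^ 2 - 4 α γ = -16 A disc ≠ 0`. So the
residues of the rows lie in `R = {t | IsSquare (α t ^ 2 + β t + γ)}`, `2 * #R ≤ p + 3` (`sq_card`), and `rows_le`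
gives both bounds.
`oth`: if `A = 0` exchange the coordinates (`swap_four`): the polynomial with the coefficients
`C, B, A, E, D, F` has the same `disc`.
`to_hyp`: `B ≠ 0`, `a = -E / B`, `b = -D / B`, `k = D E / B ^ 2 - F / B = disc / B ^ 3`.
-/

set_option autoImplicit false

namespace H59.CM

open Finset

private lemma oth_two {p : ℕ} [Fact p.Prime] (hp : 3 ≤ p) : (2 : ZMod p) ≠ 0 := by
  intro h
  have h1 : ((2 : ℕ) : ZMod p) = 0 := by exact_mod_cast h
  rw [ZMod.natCast_eq_zero_iff] at h1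
  have := Nat.le_of_dvd (by norm_num) h1
  omega

theorem oth_row {p : ℕ} [Fact p.Prime] (hp : 3 ≤ p) {n : ℕ} {T : Finset (ℕ × ℕ)} (hT : Four n T)
    (A B C D E F : ZMod p) (hA : A ≠ 0) (hd : disc A B C D E F ≠ 0)
    (hC : ∀ q ∈ T, qf A B C D E F q.1 q.2 = 0) :
    #T ≤ (n / p + 1) * (p + 3) ∧ #T + n / p * (p - 3) ≤ 2 * n := by
  classical
  have h2 := oth_two hp
  set α : ZMod p := B ^ 2 - 4 * A * C with hα
  set β : ZMod p := 2 * B * D - 4 * A * E with hβ
  set γ : ZMod p := D ^ 2 - 4 * A * F with hγ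
  have hne : β ^ 2 - 4 * α * γ ≠ 0 := by
    have e : β ^ 2 - 4 * α * γ = -(2 ^ 4 * A * disc A B C D E F) := by
      rw [hα, hβ, hγ]
      unfold disc
      ring
    rw [e]
    exact neg_ne_zero.2 (mul_ne_zero (mul_ne_zero (pow_ne_zero 4 h2) hA) hd)
  have hcard : 2 * #{t : ZMod p | IsSquare (α * t ^ 2 + β * t + γ)} ≤ p + 3 :=
    sq_card (by omega) α β γ hne
  set R : Finset (ZMod p) := {t : ZMod p | IsSquare (α * t ^ 2 + β * t + γ)} with hR
  have hmem : ∀ q ∈ T, ((q.2 : ℕ) : ZMod p) ∈ R := by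
    intro q hq
    rw [hR, mem_filter]
    refine ⟨mem_univ _, 2 * A * (q.1 : ZMod p) + B * (q.2 : ZMod p) + D, ?_⟩
    have h1 := hC q hq
    unfold qf at h1
    rw [hα, hβ, hγ]
    linear_combination (-4 * A) * h1
  obtain ⟨r1, r2⟩ := rows_le hT R hmem
  constructor
  · calc #T ≤ 2 * ((n / p + 1) * #R) := r1
      _ = (n / p + 1) * (2 * #R) := by ring
      _ ≤ (n / p + 1) * (p + 3) := Nat.mul_le_mul_left _ hcard
  · have h3 : p - 3 ≤ 2 * (p - #R) := by omega
    have h4 : n / p * (p - 3) ≤ n / p * (2 * (p - #R)) := Nat.mul_le_mul_left _ h3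
    have h5 : n / p * (2 * (p - #R)) = 2 * (n / p * (p - #R)) := by ring
    omega

theorem oth {p : ℕ} [Fact p.Prime] (hp : 3 ≤ p) {n : ℕ} {T : Finset (ℕ × ℕ)} (hT : Four n T)
    (A B C D E F : ZMod p) (hA : A ≠ 0 ∨ C ≠ 0) (hd : disc A B C D E F ≠ 0)
    (hC : ∀ q ∈ T, qf A B C D E F q.1 q.2 = 0) :
    #T ≤ (n / p + 1) * (p + 3) ∧ #T + n / p * (p - 3) ≤ 2 * n := by
  rcases hA with hA | hA
  · exact oth_row hp hT A B C D E F hA hd hC
  · have h1 := oth_row hp (swap_four hT) C B A E D F hA (fun h => hd (by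
      unfold disc at h ⊢
      linear_combination h)) (fun q hq => by
      rw [mem_map] at hq
      obtain ⟨r, hr, rfl⟩ := hq
      have h2 := hC r hr
      show qf C B A E D F r.2 r.1 = 0
      unfold qf at h2 ⊢
      linear_combination h2)
    rwa [card_map] at h1

theorem to_hyp {p : ℕ} [Fact p.Prime] (B D E F : ZMod p) (hd : disc 0 B 0 D E F ≠ 0) :
    ∃ a b k : ZMod p, k ≠ 0 ∧ ∀ x y : ℕ, qf 0 B 0 D E F x y = 0 → Hy a b k (x, y) := by
  have hB : B ≠ 0 := by
    intro h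
    apply hd
    unfold disc
    rw [h]
    ring
  refine ⟨-E / B, -D / B, D * E / B ^ 2 - F / B, ?_, ?_⟩
  · have e : D * E / B ^ 2 - F / B = disc 0 B 0 D E F / B ^ 3 := by
      unfold disc
      field_simp
      ring
    rw [e]
    exact div_ne_zero hd (pow_ne_zero 3 hB)
  · intro x y h
    unfold qf at h
    unfold Hy
    simp only
    have h1 : B * (x : ZMod p) * (y : ZMod p) + D * (x : ZMod p) + E * (y : ZMod p) + F = 0 := by
      linear_combination h
    field_simp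
    linear_combination B * h1

end H59.CM
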