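import Pool.Agent.H59.CM.Defs

/-!
# Module Pair: the first cells dominate

PROOF. For `q` on the hyperbola put `j = min (q.1 / p) (q.2 / p)`, `first q = (q.1 - j p, q.2 - j p)`. It has the same
residues, lies on the same diagonal, is in the box and one coordinate is `< p`: `first q ∈ Fst`.
For `u : ℤ` let `T_u, F_u, G_u` be the elements of `T, Fst, Tan` with `x - y = u`. CLAIM `#T_u ≤ #F_u + #G_u`; the sum
over `u ∈ Ioo (-n) n` (`card_eq_sum_card_fiberwise`) is the theorem. If `T_u` is empty: clear. If `#T_u = 1`: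
`first q ∈ F_u`. Otherwise (`hT.dia`) `#T_u = 2`, take `q ≠ r` in `T_u`. If `first q ≠ first r` then `#F_u ≥ 2`. Otherwise
`first q = first r = (x, y)` and one of `q, r` is `(x + i p, y + i p)` with `i ≥ 1`, so `x + p < n`, `y + p < n`. If
`y - b = -(x - a)` mod `p` then `(x, y) ∈ G_u`, `#F_u + #G_u ≥ 2`. Otherwise put `s = x - a ≠ 0` (as `k ≠ 0`),
`s' = -k / s ≠ s`, `i = (s' - s).val < p`. The cell `c = (x + i, y + i)` is in the box; `y - b = k / s`, so
`x + i - a = s'`, `y + i - b = k / s + s' - s = -s` and `s' * (-s) = k`: `c` is on the hyperbola. `first c ∈ F_u` has the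
residue `a + s'` in the first coordinate, `(x, y)` the residue `a + s`: they are different, `#F_u ≥ 2`.
-/

set_option autoImplicit false

namespace H59.CM

open Finset

private def Pair_f (p : ℕ) (q : ℕ × ℕ) : ℕ × ℕ :=
  (q.1 - min (q.1 / p) (q.2 / p) * p, q.2 - min (q.1 / p) (q.2 / p) * p)

private lemma Pair_spec (p : ℕ) (hp : 0 < p) (q : ℕ × ℕ) : ∃ j : ℕ,
    q.1 = (Pair_f p q).1 + j * p ∧ q.2 = (Pair_f p q).2 + j * p ∧
      ((Pair_f p q).1 < p ∨ (Pair_f p q).2 < p) := by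
  refine ⟨min (q.1 / p) (q.2 / p), ?_, ?_, ?_⟩
  · have h1 : min (q.1 / p) (q.2 / p) * p ≤ q.1 :=
      (Nat.mul_le_mul_right p (min_le_left _ _)).trans (Nat.div_mul_le_self _ _)
    simp only [Pair_f]
    omega
  · have h1 : min (q.1 / p) (q.2 / p) * p ≤ q.2 :=
      (Nat.mul_le_mul_right p (min_le_right _ _)).trans (Nat.div_mul_le_self _ _)
    simp only [Pair_f]
    omega
  · rcases le_total (q.1 / p) (q.2 / p) with h | h
    · left
      have h1 := Nat.mod_add_div q.1 p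
      have h2 := Nat.mod_lt q.1 hp
      simp only [Pair_f, min_eq_left h]
      rw [mul_comm] at h1
      omega
    · right
      have h1 := Nat.mod_add_div q.2 p
      have h2 := Nat.mod_lt q.2 hp
      simp only [Pair_f, min_eq_right h]
      rw [mul_comm] at h1
      omega

private lemma Pair_mem {p : ℕ} (hp : 0 < p) {n : ℕ} {a b k : ZMod p} {q : ℕ × ℕ}
    (h1 : q.1 < n) (h2 : q.2 < n) (hq : Hy a b k q) :
    Pair_f p q ∈ Fst n p a b k ∧
      ((Pair_f p q).1 : ℤ) - ((Pair_f p q).2 : ℤ) = (q.1 : ℤ) - (q.2 : ℤ) ∧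
      ((Pair_f p q).1 : ZMod p) = (q.1 : ZMod p) ∧
      ((Pair_f p q).2 : ZMod p) = (q.2 : ZMod p) := by
  obtain ⟨j, h3, h4, h5⟩ := Pair_spec p hp q
  have e1 : ((Pair_f p q).1 : ZMod p) = (q.1 : ZMod p) := by
    have h6 := congrArg (fun x : ℕ => (x : ZMod p)) h3
    simp only [Nat.cast_add, Nat.cast_mul, CharP.cast_eq_zero, mul_zero, add_zero] at h6
    exact h6.symm
  have e2 : ((Pair_f p q).2 : ZMod p) = (q.2 : ZMod p) := by
    have h6 := congrArg (fun x : ℕ => (x : ZMod p)) h4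
    simp only [Nat.cast_add, Nat.cast_mul, CharP.cast_eq_zero, mul_zero, add_zero] at h6
    exact h6.symm
  refine ⟨?_, by omega, e1, e2⟩
  simp only [Fst, mem_filter, mem_product, mem_range]
  refine ⟨⟨by omega, by omega⟩, ?_, h5⟩
  unfold Hy
  rw [e1, e2]
  exact hq

private lemma Pair_diag {p : ℕ} [Fact p.Prime] {n : ℕ} {T : Finset (ℕ × ℕ)} (hT : Four n T)
    (a b k : ZMod p) (hk : k ≠ 0) (hH : ∀ q ∈ T, Hy a b k q) (u : ℤ) :
    #{q ∈ T | (q.1 : ℤ) - (q.2 : ℤ) = u} ≤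
      #{q ∈ Fst n p a b k | (q.1 : ℤ) - (q.2 : ℤ) = u} +
        #{q ∈ Tan n p a b k | (q.1 : ℤ) - (q.2 : ℤ) = u} := by
  have hp : 0 < p := (Fact.out : p.Prime).pos
  have hF : ∀ q ∈ ({q ∈ T | (q.1 : ℤ) - (q.2 : ℤ) = u} : Finset (ℕ × ℕ)),
      Pair_f p q ∈ ({q ∈ Fst n p a b k | (q.1 : ℤ) - (q.2 : ℤ) = u} : Finset (ℕ × ℕ)) := by
    intro q hq
    obtain ⟨hqT, hqu⟩ := mem_filter.1 hq
    obtain ⟨h1, h2⟩ := hT.box q hqT
    obtain ⟨h3, h4, -, -⟩ := Pair_mem hp h1 h2 (hH q hqT)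
    exact mem_filter.2 ⟨h3, h4.trans hqu⟩
  have hd := hT.dia u
  rcases Finset.eq_empty_or_nonempty ({q ∈ T | (q.1 : ℤ) - (q.2 : ℤ) = u} : Finset (ℕ × ℕ))
    with h0 | ⟨q, hq⟩
  · rw [h0, card_empty]
    exact Nat.zero_le _
  have hF1 : 1 ≤ #{q ∈ Fst n p a b k | (q.1 : ℤ) - (q.2 : ℤ) = u} :=
    card_pos.2 ⟨_, hF q hq⟩
  by_cases hc : #{q ∈ T | (q.1 : ℤ) - (q.2 : ℤ) = u} ≤ 1
  · omega
  obtain ⟨q, hq, r, hr, hqr⟩ := one_lt_card.1 (not_le.1 hc)
  by_cases hf : Pair_f p q = Pair_f p r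
  · obtain ⟨hqT, hqu⟩ := mem_filter.1 hq
    obtain ⟨hrT, hru⟩ := mem_filter.1 hr
    obtain ⟨hq1, hq2⟩ := hT.box q hqT
    obtain ⟨hr1, hr2⟩ := hT.box r hrT
    obtain ⟨h3, h4, e1, e2⟩ := Pair_mem hp hq1 hq2 (hH q hqT)
    obtain ⟨i, hi1, hi2, h5⟩ := Pair_spec p hp q
    obtain ⟨j, hj1, hj2, -⟩ := Pair_spec p hp r
    rw [← hf] at hj1 hj2
    obtain ⟨f, hfd⟩ : ∃ f, f = Pair_f p q := ⟨_, rfl⟩
    rw [← hfd] at h3 h4 e1 e2 hi1 hi2 h5 hj1 hj2
    have hbig : f.1 + p < n ∧ f.2 + p < n := by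
      rcases Nat.eq_zero_or_pos i with h0 | h0
      · rcases Nat.eq_zero_or_pos j with h0' | h0'
        · exfalso
          apply hqr
          rw [h0] at hi1 hi2
          rw [h0'] at hj1 hj2
          exact Prod.ext (by omega) (by omega)
        · have h6 : p ≤ j * p := Nat.le_mul_of_pos_left p h0'
          omega
      · have h6 : p ≤ i * p := Nat.le_mul_of_pos_left p h0
        omega
    have hfH : ((f.1 : ZMod p) - a) * ((f.2 : ZMod p) - b) = k := by
      rw [e1, e2]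
      exact hH q hqT
    have hfF : f ∈ ({q ∈ Fst n p a b k | (q.1 : ℤ) - (q.2 : ℤ) = u} : Finset (ℕ × ℕ)) := by
      rw [hfd]
      exact hF q hq
    by_cases ht : (f.2 : ZMod p) - b = -((f.1 : ZMod p) - a)
    · have hG : f ∈ ({q ∈ Tan n p a b k | (q.1 : ℤ) - (q.2 : ℤ) = u} : Finset (ℕ × ℕ)) := by
        refine mem_filter.2 ⟨?_, h4.trans hqu⟩
        simp only [Tan, mem_filter, mem_product, mem_range]
        exact ⟨⟨by omega, by omega⟩, hfH, h5, ht, hbig⟩
      have hG1 : 1 ≤ #{q ∈ Tan n p a b k | (q.1 : ℤ) - (q.2 : ℤ) = u} := card_pos.2 ⟨_, hG⟩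
      omega
    · obtain ⟨s, hs⟩ : ∃ s, s = (f.1 : ZMod p) - a := ⟨_, rfl⟩
      obtain ⟨t, hte⟩ : ∃ t, t = (f.2 : ZMod p) - b := ⟨_, rfl⟩
      rw [← hs, ← hte] at hfH ht
      -- `s' = -t`
      have hlt : (-t - s).val < p := ZMod.val_lt _
      have hval : (((-t - s).val : ℕ) : ZMod p) = -t - s := ZMod.natCast_zmod_val _
      have hcH : Hy a b k (f.1 + (-t - s).val, f.2 + (-t - s).val) := by
        unfold Hy
        have c1 : (((f.1 + (-t - s).val : ℕ) : ZMod p)) - a = -t := by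
          rw [Nat.cast_add, hval]
          have : (f.1 : ZMod p) = s + a := by rw [hs]; ring
          rw [this]
          ring
        have c2 : (((f.2 + (-t - s).val : ℕ) : ZMod p)) - b = -s := by
          rw [Nat.cast_add, hval]
          have : (f.2 : ZMod p) = t + b := by rw [hte]; ring
          rw [this]
          ring
        show (((f.1 + (-t - s).val : ℕ) : ZMod p) - a) * (((f.2 + (-t - s).val : ℕ) : ZMod p) - b) = k
        rw [c1, c2, neg_mul_neg, mul_comm]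
        exact hfH
      obtain ⟨g3, g4, g1, -⟩ := Pair_mem (n := n) hp
        (q := (f.1 + (-t - s).val, f.2 + (-t - s).val)) (by simp only; omega) (by simp only; omega) hcH
      have hgF : Pair_f p (f.1 + (-t - s).val, f.2 + (-t - s).val) ∈
          ({q ∈ Fst n p a b k | (q.1 : ℤ) - (q.2 : ℤ) = u} : Finset (ℕ × ℕ)) := by
        refine mem_filter.2 ⟨g3, ?_⟩
        rw [g4]
        push_cast
        linarith
      have hne : f ≠ Pair_f p (f.1 + (-t - s).val, f.2 + (-t - s).val) := by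
        intro he
        rw [← he] at g1
        simp only [Nat.cast_add] at g1
        rw [hval] at g1
        have g2 : -t - s = 0 := by
          have g5 : (f.1 : ZMod p) + 0 = (f.1 : ZMod p) + (-t - s) := by rw [add_zero]; exact g1
          exact (add_left_cancel g5).symm
        apply ht
        have g6 : -t = s := sub_eq_zero.1 g2
        rw [← g6, neg_neg]
      have h7 : 1 < #{q ∈ Fst n p a b k | (q.1 : ℤ) - (q.2 : ℤ) = u} :=
        one_lt_card.2 ⟨_, hfF, _, hgF, hne⟩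
      omega
  · have h7 : 1 < #{q ∈ Fst n p a b k | (q.1 : ℤ) - (q.2 : ℤ) = u} :=
      one_lt_card.2 ⟨_, hF q hq, _, hF r hr, hf⟩
    omega

theorem pair_le {p : ℕ} [Fact p.Prime] {n : ℕ} {T : Finset (ℕ × ℕ)} (hT : Four n T)
    (a b k : ZMod p) (hk : k ≠ 0) (hH : ∀ q ∈ T, Hy a b k q) :
    #T ≤ #(Fst n p a b k) + #(Tan n p a b k) := by
  obtain ⟨d, hd⟩ : ∃ d : ℕ × ℕ → ℤ, d = fun q => (q.1 : ℤ) - (q.2 : ℤ) := ⟨_, rfl⟩
  obtain ⟨U, hU⟩ : ∃ U : Finset ℤ, U = (T ∪ (Fst n p a b k ∪ Tan n p a b k)).image d := ⟨_, rfl⟩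
  have h1 : #T = ∑ u ∈ U, #{q ∈ T | d q = u} := by
    refine card_eq_sum_card_fiberwise fun q hq => ?_
    rw [hU]
    exact mem_coe.2 (mem_image_of_mem d (mem_union_left _ hq))
  have h2 : #(Fst n p a b k) = ∑ u ∈ U, #{q ∈ Fst n p a b k | d q = u} := by
    refine card_eq_sum_card_fiberwise fun q hq => ?_
    rw [hU]
    exact mem_coe.2 (mem_image_of_mem d (mem_union_right _ (mem_union_left _ hq)))
  have h3 : #(Tan n p a b k) = ∑ u ∈ U, #{q ∈ Tan n p a b k | d q = u} := by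
    refine card_eq_sum_card_fiberwise fun q hq => ?_
    rw [hU]
    exact mem_coe.2 (mem_image_of_mem d (mem_union_right _ (mem_union_right _ hq)))
  rw [h1, h2, h3, ← sum_add_distrib]
  refine sum_le_sum fun u _ => ?_
  rw [hd]
  exact Pair_diag hT a b k hk hH u

end H59.CM
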