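import Pool.Agent.H59.CM.Cnt

/-!
# Module TanC: the number of first cells on the tangent diagonals

PROOF. Put `Q = (n + p - 1) / p`, so `Q ≥ 2`. For `q ∈ Tan` the residue `s = q.1 - a` has `s ^ 2 = -k` and
`q.2 = b - s` mod `p`. There are at most two `s` with `s ^ 2 = -k` (`s` and `-s`). For fixed `s` let
`x0 = (a + s).val`, `y0 = (b - s).val` (both `< p`). The elements of `Tan` with this `s` are
`(x0, y)` with `y ≡ y0`, `y + p < n` (at most `Q - 1` numbers `y`: `y ↦ y + p` maps them injectively into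
`{y' ∈ range n | y' = b - s}` without `y0`, `cnt_le`) or `(x, y0)` with `x ≡ x0`, `x + p < n` (at most `Q - 1`).
If there is any such element then `x0 + p < n` and `y0 + p < n`, so `(x0, y0)` is counted twice: at most
`2 (Q - 1) - 1 = 2 Q - 3` elements. Together at most `4 Q - 6`.
-/

set_option autoImplicit false

namespace H59.CM

open Finset

private theorem TanC_val {p : ℕ} [Fact p.Prime] (x : ℕ) (c : ZMod p) (h : (x : ZMod p) = c) :
    c.val ≤ x ∧ (x < p → x = c.val) := by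
  subst h
  rw [ZMod.val_natCast]
  exact ⟨Nat.mod_le _ _, fun hx => (Nat.mod_eq_of_lt hx).symm⟩

open Classical in
private theorem TanC_part {p : ℕ} [Fact p.Prime] {n : ℕ} (hpn : p < n) (c e : ZMod p)
    (P : Finset (ℕ × ℕ)) (hP : ∀ q ∈ P, (q.1 : ZMod p) = c ∧ (q.2 : ZMod p) = e ∧
      (q.1 < p ∨ q.2 < p) ∧ q.1 + p < n ∧ q.2 + p < n) :
    #P + 3 ≤ 2 * ((n + p - 1) / p) := by
  have hp : 0 < p := (Fact.out : p.Prime).pos
  have hQ : (n + p - 1) / p = (n - 1) / p + 1 := by
    have : n + p - 1 = (n - 1) + p := by omega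
    rw [this, Nat.add_div_right _ hp]
  have hQ1 : 1 ≤ (n - 1) / p := by
    rw [Nat.one_le_div_iff hp]
    omega
  rcases P.eq_empty_or_nonempty with h0 | ⟨q1, hq1⟩
  · rw [h0, card_empty, hQ]
    omega
  have hcard : ∀ c : ZMod p, #{y ∈ range (n - p) | ((y : ℕ) : ZMod p) = c} ≤ (n - 1) / p := by
    intro c
    have := cnt_le (n - p) c
    have h1 : n - p + p - 1 = n - 1 := by omega
    rwa [h1] at this
  set A : Finset (ℕ × ℕ) := {c.val} ×ˢ {y ∈ range (n - p) | ((y : ℕ) : ZMod p) = e} with hA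
  set B : Finset (ℕ × ℕ) := {x ∈ range (n - p) | ((x : ℕ) : ZMod p) = c} ×ˢ {e.val} with hB
  have hAc : #A ≤ (n - 1) / p := by
    rw [hA, card_product, card_singleton, one_mul]
    exact hcard e
  have hBc : #B ≤ (n - 1) / p := by
    rw [hB, card_product, card_singleton, mul_one]
    exact hcard c
  have hsub : P ⊆ A ∪ B := by
    intro q hq
    obtain ⟨h1, h2, h3, h4, h5⟩ := hP q hq
    rw [mem_union]
    rcases h3 with h3 | h3
    · left
      rw [hA, mem_product]
      refine ⟨mem_singleton.2 ((TanC_val _ _ h1).2 h3), mem_filter.2 ⟨mem_range.2 (by omega), h2⟩⟩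
    · right
      rw [hB, mem_product]
      refine ⟨mem_filter.2 ⟨mem_range.2 (by omega), h1⟩, mem_singleton.2 ((TanC_val _ _ h2).2 h3)⟩
  have hint : (c.val, e.val) ∈ A ∩ B := by
    obtain ⟨h1, h2, h3, h4, h5⟩ := hP q1 hq1
    have h6 := (TanC_val _ _ h1).1
    have h7 := (TanC_val _ _ h2).1
    rw [mem_inter, hA, hB, mem_product, mem_product]
    refine ⟨⟨mem_singleton_self _, mem_filter.2 ⟨mem_range.2 ?_, ?_⟩⟩,
      ⟨mem_filter.2 ⟨mem_range.2 ?_, ?_⟩, mem_singleton_self _⟩⟩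
    · show e.val < n - p
      omega
    · exact ZMod.natCast_zmod_val e
    · show c.val < n - p
      omega
    · exact ZMod.natCast_zmod_val c
  have h1 := card_union_add_card_inter A B
  have h2 : 1 ≤ #(A ∩ B) := card_pos.2 ⟨_, hint⟩
  have h3 := card_le_card hsub
  rw [hQ]
  omega

theorem Tan_card {p : ℕ} [Fact p.Prime] {n : ℕ} (hpn : p < n) (a b k : ZMod p) (hk : k ≠ 0) :
    #(Tan n p a b k) + 6 ≤ 4 * ((n + p - 1) / p) := by
  classical
  have hp : 0 < p := (Fact.out : p.Prime).pos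
  have hmem : ∀ q ∈ Tan n p a b k, Hy a b k q ∧ (q.1 < p ∨ q.2 < p) ∧
      (q.2 : ZMod p) - b = -((q.1 : ZMod p) - a) ∧ q.1 + p < n ∧ q.2 + p < n := by
    intro q hq
    unfold Tan at hq
    exact (mem_filter.1 hq).2
  have hsq : ∀ q ∈ Tan n p a b k, ((q.1 : ZMod p) - a) ^ 2 = -k := by
    intro q hq
    obtain ⟨h1, -, h3, -⟩ := hmem q hq
    unfold Hy at h1
    rw [h3] at h1
    rw [← h1]
    ring
  rcases (Tan n p a b k).eq_empty_or_nonempty with h0 | ⟨q0, hq0⟩
  · rw [h0, card_empty]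
    have h1 := TanC_part hpn (0 : ZMod p) (0 : ZMod p) ∅ (by simp)
    rw [card_empty] at h1
    omega
  · set s : ZMod p := (q0.1 : ZMod p) - a with hs
    have hpart : ∀ t : ZMod p, #{q ∈ Tan n p a b k | (q.1 : ZMod p) - a = t} + 3 ≤
        2 * ((n + p - 1) / p) := by
      intro t
      refine TanC_part hpn (a + t) (b - t) _ fun q hq => ?_
      obtain ⟨h1, h2⟩ := mem_filter.1 hq
      obtain ⟨-, h4, h5, h6, h7⟩ := hmem q h1
      rw [h2] at h5
      exact ⟨by linear_combination h2, by linear_combination h5, h4, h6, h7⟩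
    have hsub : Tan n p a b k ⊆ {q ∈ Tan n p a b k | (q.1 : ZMod p) - a = s} ∪
        {q ∈ Tan n p a b k | (q.1 : ZMod p) - a = -s} := by
      intro q hq
      have h1 : ((q.1 : ZMod p) - a) ^ 2 = s ^ 2 := by rw [hsq q hq, hs, hsq q0 hq0]
      rw [mem_union, mem_filter, mem_filter]
      rcases sq_eq_sq_iff_eq_or_eq_neg.1 h1 with h2 | h2
      · exact Or.inl ⟨hq, h2⟩
      · exact Or.inr ⟨hq, h2⟩
    have h1 := (card_le_card hsub).trans (card_union_le _ _)
    have h2 := hpart s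
    have h3 := hpart (-s)
    omega

end H59.CM
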