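import Pool.Agent.H59.CM.WtD
import Pool.Agent.H59.CM.ColS

/-!
# Module WtG: the bound by dual weights

PROOF. Put `m = n - 1`, `X = 2 x - m`, `Y = 2 y - m`, `U = x - y`, `V = x + y - m`: `X ^ 2 + Y ^ 2 = 2 (U ^ 2 + V ^ 2)`. For every
`q = (x, y)`, as `max z 0 ≥ z`,
`lam / 2 * max (X ^ 2 - R ^ 2) 0 + lam / 2 * max (Y ^ 2 - R ^ 2) 0 + lam * max (T0 ^ 2 - U ^ 2) 0 +
lam * max (T0 ^ 2 - V ^ 2) 0 ≥ lam * (2 T0 ^ 2 - R ^ 2) = 1`. Sum over `q ∈ T`. The sum of the first terms is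
`lam / 2 * ∑ x ∈ range n, #{q ∈ T | q.1 = x} * max … 0 ≤ lam * ∑ x ∈ range n, max … 0 ≤ lam * K` (`hT.col`,
`col_sum`, `sum_fiberwise_of_maps_to`), the same for the second terms (`hT.row`); third and fourth: `dia_sum`,
`ant_sum`. `wt_sqrt` is the case `τ = (√21 - 3) / 2` (`τ ^ 2 = 3 - 3 τ`, `0.79 < τ < 0.792`), `T0 = τ n`, `R = (1 - τ) n`,
`lam = 1 / ((2 - τ) n ^ 2)`: `2 T0 ^ 2 - R ^ 2 = (τ ^ 2 + 2 τ - 1) n ^ 2 = (2 - τ) n ^ 2`. Bound: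
`(2 τ ^ 2 - 4 τ ^ 3 / 3) n / (2 - τ) + 2 (p + 1) (4 / 3 τ ^ 3 n / p + τ ^ 2) / (2 - τ)
= (2 τ ^ 2 + 4 τ ^ 3 / 3) n / (2 - τ) + 8 / 3 τ ^ 3 n / (p (2 - τ)) + 2 (p + 1) τ ^ 2 / (2 - τ)`, and
`τ ^ 3 = 12 τ - 9`, `2 τ ^ 2 + 4 τ ^ 3 / 3 = 10 τ - 6 = 2 τ (2 - τ)`, `8 / 3 τ ^ 3 ≤ 1.1 (2 - τ)` (that is
`32 τ - 24 ≤ 2.2 - 1.1 τ`, `τ ≤ 0.7915`), `2 τ ^ 2 ≤ 1.04 (2 - τ)` (that is `6 - 6 τ ≤ 2.08 - 1.04 τ`, `τ ≥ 0.7904`).
(`√21` is between `4.5825` and `4.5826`: `τ` between `0.79125` and `0.7913`.)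
-/

set_option autoImplicit false

namespace H59.CM

open Finset

private lemma WtG_col {n : ℕ} {T : Finset (ℕ × ℕ)} (hT : Four n T) (f : ℕ → ℝ)
    (hf : ∀ x, 0 ≤ f x) : ∑ q ∈ T, f q.1 ≤ 2 * ∑ x ∈ range n, f x := by
  have h1 : ∀ q ∈ T, q.1 ∈ range n := fun q hq => mem_range.2 (hT.box q hq).1
  rw [← Finset.sum_fiberwise_of_maps_to h1, Finset.mul_sum]
  refine Finset.sum_le_sum fun x _ => ?_
  have h2 : ∑ q ∈ T with q.1 = x, f q.1 = (#{q ∈ T | q.1 = x} : ℝ) * f x := by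
    rw [← nsmul_eq_mul, ← Finset.sum_const]
    refine Finset.sum_congr rfl fun q hq => ?_
    rw [(mem_filter.1 hq).2]
  rw [h2]
  refine mul_le_mul_of_nonneg_right ?_ (hf x)
  exact_mod_cast hT.col x

private lemma WtG_row {n : ℕ} {T : Finset (ℕ × ℕ)} (hT : Four n T) (f : ℕ → ℝ)
    (hf : ∀ x, 0 ≤ f x) : ∑ q ∈ T, f q.2 ≤ 2 * ∑ x ∈ range n, f x := by
  have h1 : ∀ q ∈ T, q.2 ∈ range n := fun q hq => mem_range.2 (hT.box q hq).2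
  rw [← Finset.sum_fiberwise_of_maps_to h1, Finset.mul_sum]
  refine Finset.sum_le_sum fun x _ => ?_
  have h2 : ∑ q ∈ T with q.2 = x, f q.2 = (#{q ∈ T | q.2 = x} : ℝ) * f x := by
    rw [← nsmul_eq_mul, ← Finset.sum_const]
    refine Finset.sum_congr rfl fun q hq => ?_
    rw [(mem_filter.1 hq).2]
  rw [h2]
  refine mul_le_mul_of_nonneg_right ?_ (hf x)
  exact_mod_cast hT.row x

theorem wt_gen {p : ℕ} [Fact p.Prime] {n : ℕ} {T : Finset (ℕ × ℕ)} (hT : Four n T)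
    (a b k : ZMod p) (hk : k ≠ 0) (hH : ∀ q ∈ T, Hy a b k q) (T0 R lam : ℝ) (hT0 : 0 ≤ T0)
    (hR : 0 ≤ R) (hRn : R ≤ n) (hlam : 0 ≤ lam) (h1 : lam * (2 * T0 ^ 2 - R ^ 2) = 1) :
    (#T : ℝ) ≤ 2 * lam * (((n : ℝ) - R) ^ 2 * ((n : ℝ) + 2 * R) / 3) +
      2 * ((p : ℝ) + 1) * lam * (4 / 3 * T0 ^ 3 / p + T0 ^ 2) := by
  set h : ℕ → ℝ := fun x => max ((2 * (x : ℝ) - ((n : ℝ) - 1)) ^ 2 - R ^ 2) 0 with hh
  have hh0 : ∀ x, 0 ≤ h x := fun x => le_max_right _ _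
  have hc := WtG_col hT h hh0
  have hr := WtG_row hT h hh0
  have hs := col_sum n R hR hRn
  have hd := dia_sum hT a b k hk hH T0 hT0
  have ha := ant_sum hT a b k hk hH T0 hT0
  have key : (#T : ℝ) ≤ ∑ q ∈ T, (lam / 2 * h q.1 + lam / 2 * h q.2 +
      lam * max (T0 ^ 2 - ((q.1 : ℝ) - (q.2 : ℝ)) ^ 2) 0 +
      lam * max (T0 ^ 2 - ((q.1 : ℝ) + (q.2 : ℝ) - ((n : ℝ) - 1)) ^ 2) 0) := by
    rw [Finset.card_eq_sum_ones]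
    push_cast
    refine Finset.sum_le_sum fun q _ => ?_
    have e1 : (2 * (q.1 : ℝ) - ((n : ℝ) - 1)) ^ 2 - R ^ 2 ≤ h q.1 := le_max_left _ _
    have e2 : (2 * (q.2 : ℝ) - ((n : ℝ) - 1)) ^ 2 - R ^ 2 ≤ h q.2 := le_max_left _ _
    have e3 := le_max_left (T0 ^ 2 - ((q.1 : ℝ) - (q.2 : ℝ)) ^ 2) 0
    have e4 := le_max_left (T0 ^ 2 - ((q.1 : ℝ) + (q.2 : ℝ) - ((n : ℝ) - 1)) ^ 2) 0
    have f1 := mul_le_mul_of_nonneg_left e1 (by positivity : 0 ≤ lam / 2)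
    have f2 := mul_le_mul_of_nonneg_left e2 (by positivity : 0 ≤ lam / 2)
    have f3 := mul_le_mul_of_nonneg_left e3 hlam
    have f4 := mul_le_mul_of_nonneg_left e4 hlam
    have f5 : lam / 2 * ((2 * (q.1 : ℝ) - ((n : ℝ) - 1)) ^ 2 - R ^ 2) +
        lam / 2 * ((2 * (q.2 : ℝ) - ((n : ℝ) - 1)) ^ 2 - R ^ 2) +
        lam * (T0 ^ 2 - ((q.1 : ℝ) - (q.2 : ℝ)) ^ 2) +
        lam * (T0 ^ 2 - ((q.1 : ℝ) + (q.2 : ℝ) - ((n : ℝ) - 1)) ^ 2) =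
        lam * (2 * T0 ^ 2 - R ^ 2) := by ring
    linarith
  rw [Finset.sum_add_distrib, Finset.sum_add_distrib, Finset.sum_add_distrib, ← Finset.mul_sum,
    ← Finset.mul_sum, ← Finset.mul_sum, ← Finset.mul_sum] at key
  have g1 := mul_le_mul_of_nonneg_left hc (by positivity : 0 ≤ lam / 2)
  have g2 := mul_le_mul_of_nonneg_left hr (by positivity : 0 ≤ lam / 2)
  have g3 := mul_le_mul_of_nonneg_left hd hlam
  have g4 := mul_le_mul_of_nonneg_left ha hlam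
  have g5 := mul_le_mul_of_nonneg_left hs hlam
  have g6 : ∑ x ∈ range n, h x ≤ ((n : ℝ) - R) ^ 2 * ((n : ℝ) + 2 * R) / 3 := hs
  have g7 := mul_le_mul_of_nonneg_left g6 hlam
  linarith

theorem wt_sqrt {p : ℕ} [Fact p.Prime] {n : ℕ} (hn : 1 ≤ n) {T : Finset (ℕ × ℕ)} (hT : Four n T)
    (a b k : ZMod p) (hk : k ≠ 0) (hH : ∀ q ∈ T, Hy a b k q) :
    (#T : ℝ) ≤ (Real.sqrt 21 - 3) * n + 1.1 * n / p + 1.04 * ((p : ℝ) + 1) := by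
  set s := Real.sqrt 21 with hsd
  have hs2 : s ^ 2 = 21 := Real.sq_sqrt (by norm_num)
  have hs1 : s ≤ 4.5826 := by
    rw [hsd, Real.sqrt_le_left (by norm_num)]
    norm_num
  have hs0 : 4.5825 ≤ s := by
    rw [hsd]
    exact Real.le_sqrt_of_sq_le (by norm_num)
  obtain ⟨τ, hτ⟩ : ∃ τ : ℝ, τ = (s - 3) / 2 := ⟨_, rfl⟩
  have ht2 : τ ^ 2 = 3 - 3 * τ := by rw [hτ]; linarith [hs2]
  have ht3 : τ ^ 3 = 12 * τ - 9 := by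
    have : τ ^ 3 = τ * τ ^ 2 := by ring
    rw [this, ht2]
    have : τ * (3 - 3 * τ) = 3 * τ - 3 * τ ^ 2 := by ring
    rw [this, ht2]
    ring
  have hτ0 : 0.79125 ≤ τ := by rw [hτ]; linarith
  have hτ1 : τ ≤ 0.7913 := by rw [hτ]; linarith
  have hnr : (1 : ℝ) ≤ n := by exact_mod_cast hn
  have hn0 : (0 : ℝ) < n := by linarith
  have hp0 : (0 : ℝ) < p := by exact_mod_cast (Fact.out : p.Prime).pos
  have h2t : 0 < 2 - τ := by linarith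
  have hw := wt_gen hT a b k hk hH (τ * n) ((1 - τ) * n) (1 / ((2 - τ) * (n : ℝ) ^ 2))
    (by nlinarith) (by nlinarith) (by nlinarith) (by positivity)
    (by
      have : 2 * (τ * (n : ℝ)) ^ 2 - ((1 - τ) * n) ^ 2 = (2 - τ) * (n : ℝ) ^ 2 := by
        have : 2 * (τ * (n : ℝ)) ^ 2 - ((1 - τ) * n) ^ 2 = (τ ^ 2 + 2 * τ - 1) * (n : ℝ) ^ 2 := by
          ring
        rw [this, ht2]
        ring
      rw [this]
      field_simp)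
  refine hw.trans ?_
  have e1 : 2 * (1 / ((2 - τ) * (n : ℝ) ^ 2)) *
      (((n : ℝ) - (1 - τ) * n) ^ 2 * ((n : ℝ) + 2 * ((1 - τ) * n)) / 3) +
      2 * ((p : ℝ) + 1) * (1 / ((2 - τ) * (n : ℝ) ^ 2)) *
        (4 / 3 * (τ * (n : ℝ)) ^ 3 / p + (τ * n) ^ 2) =
      ((2 * τ ^ 2 + 4 / 3 * τ ^ 3) * n + 8 / 3 * τ ^ 3 * (n / p) + 2 * ((p : ℝ) + 1) * τ ^ 2) /
        (2 - τ) := by
    field_simp
    ring
  rw [e1, div_le_iff₀ h2t, ht2, ht3]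
  have hnp : 0 ≤ (n : ℝ) / p := by positivity
  have e2 : 1.1 * (n : ℝ) / p = 1.1 * (n / p) := by ring
  have e3 : s - 3 = 2 * τ := by rw [hτ]; ring
  rw [e2, e3]
  have k1 : (2 * (3 - 3 * τ) + 4 / 3 * (12 * τ - 9)) * (n : ℝ) = 2 * τ * n * (2 - τ) := by
    have : 2 * τ * (n : ℝ) * (2 - τ) = (4 * τ - 2 * τ ^ 2) * n := by ring
    rw [this, ht2]
    ring
  have k2 : 8 / 3 * (12 * τ - 9) * ((n : ℝ) / p) ≤ 1.1 * (n / p) * (2 - τ) := by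
    have : 8 / 3 * (12 * τ - 9) ≤ 1.1 * (2 - τ) := by linarith
    calc 8 / 3 * (12 * τ - 9) * ((n : ℝ) / p) ≤ 1.1 * (2 - τ) * (n / p) :=
          mul_le_mul_of_nonneg_right this hnp
      _ = 1.1 * (n / p) * (2 - τ) := by ring
  have k3 : 2 * ((p : ℝ) + 1) * (3 - 3 * τ) ≤ 1.04 * ((p : ℝ) + 1) * (2 - τ) := by
    have : 2 * (3 - 3 * τ) ≤ 1.04 * (2 - τ) := by linarith
    calc 2 * ((p : ℝ) + 1) * (3 - 3 * τ) = 2 * (3 - 3 * τ) * ((p : ℝ) + 1) := by ring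
      _ ≤ 1.04 * (2 - τ) * ((p : ℝ) + 1) := mul_le_mul_of_nonneg_right this (by linarith)
      _ = 1.04 * ((p : ℝ) + 1) * (2 - τ) := by ring
  have k4 : (2 * τ * (n : ℝ) + 1.1 * (n / p) + 1.04 * ((p : ℝ) + 1)) * (2 - τ) =
      2 * τ * n * (2 - τ) + 1.1 * (n / p) * (2 - τ) + 1.04 * ((p : ℝ) + 1) * (2 - τ) := by ring
  rw [k4]
  linarith

end H59.CM
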