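import Pool.Agent.H59.CM.WtE
import Pool.Agent.H59.CM.ColS

/-!
# Module WtH: the bound by dual weights, second form

PROOF as in `WtG.lean` with `dia_sum2`, `ant_sum2`. Constants: `4 τ ^ 2 / (2 - τ) ≤ 2.073`, `2 ^ (3 / 4) ≤ 1.6818`...
-/

set_option autoImplicit false

namespace H59.CM

open Finset

private lemma WtH_col {n : ℕ} {T : Finset (ℕ × ℕ)} (hT : Four n T) (f : ℕ → ℝ)
    (hf : ∀ x, 0 ≤ f x) : ∑ q ∈ T, f q.1 ≤ 2 * ∑ x ∈ range n, f x := by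
  have h1 : ∀ q ∈ T, q.1 ∈ range n := fun q hq => mem_range.2 (hT.box q hq).1
  rw [← Finset.sum_fiberwise_of_maps_to h1, Finset.mul_sum]
  refine Finset.sum_le_sum fun x _ => ?_
  have h2 : ∑ q ∈ T with q.1 = x, f q.1 = (#{q ∈ T | q.1 = x} : ℝ) * f x := by
    rw [← nsmul_eq_mul, ← Finset.sum_const]
    refine Finset.sum_congr rfl fun q hq => ?_
    rw [(mem_filter.1 hq).2]
  rw [h2]
  refine mul_le_mul_of_nonneg_right ?_ (hf x)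
  exact_mod_cast hT.col x

private lemma WtH_row {n : ℕ} {T : Finset (ℕ × ℕ)} (hT : Four n T) (f : ℕ → ℝ)
    (hf : ∀ x, 0 ≤ f x) : ∑ q ∈ T, f q.2 ≤ 2 * ∑ x ∈ range n, f x := by
  have h1 : ∀ q ∈ T, q.2 ∈ range n := fun q hq => mem_range.2 (hT.box q hq).2
  rw [← Finset.sum_fiberwise_of_maps_to h1, Finset.mul_sum]
  refine Finset.sum_le_sum fun x _ => ?_
  have h2 : ∑ q ∈ T with q.2 = x, f q.2 = (#{q ∈ T | q.2 = x} : ℝ) * f x := by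
    rw [← nsmul_eq_mul, ← Finset.sum_const]
    refine Finset.sum_congr rfl fun q hq => ?_
    rw [(mem_filter.1 hq).2]
  rw [h2]
  refine mul_le_mul_of_nonneg_right ?_ (hf x)
  exact_mod_cast hT.row x

theorem wt_gen2 {p : ℕ} [Fact p.Prime] {n : ℕ} {T : Finset (ℕ × ℕ)} (hT : Four n T)
    (a b k : ZMod p) (hk : k ≠ 0) (hH : ∀ q ∈ T, Hy a b k q) (T0 R lam : ℝ) (hT0 : 0 ≤ T0)
    (hR : 0 ≤ R) (hRn : R ≤ n) (hlam : 0 ≤ lam) (h1 : lam * (2 * T0 ^ 2 - R ^ 2) = 1) :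
    (#T : ℝ) ≤ 2 * lam * (((n : ℝ) - R) ^ 2 * ((n : ℝ) + 2 * R) / 3) +
      4 * lam * (kap p * (4 / 3 * T0 ^ 3 + T0 + 1) + Eg p * T0 ^ 2) := by
  set h : ℕ → ℝ := fun x => max ((2 * (x : ℝ) - ((n : ℝ) - 1)) ^ 2 - R ^ 2) 0 with hh
  have hh0 : ∀ x, 0 ≤ h x := fun x => le_max_right _ _
  have hc := WtH_col hT h hh0
  have hr := WtH_row hT h hh0
  have hs := col_sum n R hR hRn
  have hd := dia_sum2 hT a b k hk hH T0 hT0
  have ha := ant_sum2 hT a b k hk hH T0 hT0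
  have key : (#T : ℝ) ≤ ∑ q ∈ T, (lam / 2 * h q.1 + lam / 2 * h q.2 +
      lam * max (T0 ^ 2 - ((q.1 : ℝ) - (q.2 : ℝ)) ^ 2) 0 +
      lam * max (T0 ^ 2 - ((q.1 : ℝ) + (q.2 : ℝ) - ((n : ℝ) - 1)) ^ 2) 0) := by
    rw [Finset.card_eq_sum_ones]
    push_cast
    refine Finset.sum_le_sum fun q _ => ?_
    have e1 : (2 * (q.1 : ℝ) - ((n : ℝ) - 1)) ^ 2 - R ^ 2 ≤ h q.1 := le_max_left _ _
    have e2 : (2 * (q.2 : ℝ) - ((n : ℝ) - 1)) ^ 2 - R ^ 2 ≤ h q.2 := le_max_left _ _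
    have e3 := le_max_left (T0 ^ 2 - ((q.1 : ℝ) - (q.2 : ℝ)) ^ 2) 0
    have e4 := le_max_left (T0 ^ 2 - ((q.1 : ℝ) + (q.2 : ℝ) - ((n : ℝ) - 1)) ^ 2) 0
    have f1 := mul_le_mul_of_nonneg_left e1 (by positivity : 0 ≤ lam / 2)
    have f2 := mul_le_mul_of_nonneg_left e2 (by positivity : 0 ≤ lam / 2)
    have f3 := mul_le_mul_of_nonneg_left e3 hlam
    have f4 := mul_le_mul_of_nonneg_left e4 hlam
    have f5 : lam / 2 * ((2 * (q.1 : ℝ) - ((n : ℝ) - 1)) ^ 2 - R ^ 2) +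
        lam / 2 * ((2 * (q.2 : ℝ) - ((n : ℝ) - 1)) ^ 2 - R ^ 2) +
        lam * (T0 ^ 2 - ((q.1 : ℝ) - (q.2 : ℝ)) ^ 2) +
        lam * (T0 ^ 2 - ((q.1 : ℝ) + (q.2 : ℝ) - ((n : ℝ) - 1)) ^ 2) =
        lam * (2 * T0 ^ 2 - R ^ 2) := by ring
    linarith
  rw [Finset.sum_add_distrib, Finset.sum_add_distrib, Finset.sum_add_distrib, ← Finset.mul_sum,
    ← Finset.mul_sum, ← Finset.mul_sum, ← Finset.mul_sum] at key
  have g1 := mul_le_mul_of_nonneg_left hc (by positivity : 0 ≤ lam / 2)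
  have g2 := mul_le_mul_of_nonneg_left hr (by positivity : 0 ≤ lam / 2)
  have g3 := mul_le_mul_of_nonneg_left hd hlam
  have g4 := mul_le_mul_of_nonneg_left ha hlam
  have g5 := mul_le_mul_of_nonneg_left hs hlam
  have g6 : ∑ x ∈ range n, h x ≤ ((n : ℝ) - R) ^ 2 * ((n : ℝ) + 2 * R) / 3 := hs
  have g7 := mul_le_mul_of_nonneg_left g6 hlam
  linarith

private lemma WtH_rpow : (2 : ℝ) ^ ((3 : ℝ) / 4) ≤ 1.682 := by
  have h1 : ((2 : ℝ) ^ ((3 : ℝ) / 4)) ^ 4 = 8 := by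
    rw [← Real.rpow_natCast, ← Real.rpow_mul (by norm_num)]
    norm_num
  have h2 : (8 : ℝ) ≤ 1.682 ^ 4 := by norm_num
  rw [← h1] at h2
  exact le_of_pow_le_pow_left₀ (by norm_num) (by norm_num) h2

theorem wt_sqrt2 {p : ℕ} [Fact p.Prime] (h5 : 5 ≤ p) {n : ℕ} (hpn : p ≤ n)
    {T : Finset (ℕ × ℕ)} (hT : Four n T) (a b k : ZMod p) (hk : k ≠ 0)
    (hH : ∀ q ∈ T, Hy a b k q) :
    (#T : ℝ) ≤ (Real.sqrt 21 - 3) * n + 1.1 * n / p +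
      1.75 * (p : ℝ) ^ ((3 : ℝ) / 4) * (1 + Real.log p) + 3 := by
  set s := Real.sqrt 21 with hsd
  have hs2 : s ^ 2 = 21 := Real.sq_sqrt (by norm_num)
  have hs1 : s ≤ 4.5826 := by
    rw [hsd, Real.sqrt_le_left (by norm_num)]
    norm_num
  have hs0 : 4.5825 ≤ s := by
    rw [hsd]
    exact Real.le_sqrt_of_sq_le (by norm_num)
  obtain ⟨τ, hτ⟩ : ∃ τ : ℝ, τ = (s - 3) / 2 := ⟨_, rfl⟩
  have ht2 : τ ^ 2 = 3 - 3 * τ := by rw [hτ]; linarith [hs2]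
  have ht3 : τ ^ 3 = 12 * τ - 9 := by
    have : τ ^ 3 = τ * τ ^ 2 := by ring
    rw [this, ht2]
    have : τ * (3 - 3 * τ) = 3 * τ - 3 * τ ^ 2 := by ring
    rw [this, ht2]
    ring
  have hτ0 : 0.79125 ≤ τ := by rw [hτ]; linarith
  have hτ1 : τ ≤ 0.7913 := by rw [hτ]; linarith
  have hpr : (5 : ℝ) ≤ p := by exact_mod_cast h5
  have hnr : (5 : ℝ) ≤ n := by exact_mod_cast h5.trans hpn
  have hn0 : (0 : ℝ) < n := by linarith
  have hp0 : (0 : ℝ) < p := by linarith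
  have h2t : 0 < 2 - τ := by linarith
  have hw := wt_gen2 hT a b k hk hH (τ * n) ((1 - τ) * n) (1 / ((2 - τ) * (n : ℝ) ^ 2))
    (by nlinarith) (by nlinarith) (by nlinarith) (by positivity)
    (by
      have : 2 * (τ * (n : ℝ)) ^ 2 - ((1 - τ) * n) ^ 2 = (2 - τ) * (n : ℝ) ^ 2 := by
        have : 2 * (τ * (n : ℝ)) ^ 2 - ((1 - τ) * n) ^ 2 = (τ ^ 2 + 2 * τ - 1) * (n : ℝ) ^ 2 := by
          ring
        rw [this, ht2]
        ring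
      rw [this]
      field_simp)
  refine hw.trans ?_
  set E := Eg p with hE
  have hEr : E = Er p / 2 + 1 := rfl
  have hlog : 0 ≤ Real.log p := Real.log_nonneg (by linarith)
  have e0 : Er p = (2 : ℝ) ^ ((3 : ℝ) / 4) * ((p : ℝ) ^ ((3 : ℝ) / 4) * (1 + Real.log p)) := by
    unfold Er
    rw [Real.mul_rpow (by norm_num) hp0.le]
    ring
  have hP0 : 0 ≤ (p : ℝ) ^ ((3 : ℝ) / 4) * (1 + Real.log p) := by positivity
  have hEr2 : Er p ≤ 1.682 * ((p : ℝ) ^ ((3 : ℝ) / 4) * (1 + Real.log p)) := by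
    rw [e0]
    exact mul_le_mul_of_nonneg_right WtH_rpow hP0
  have e1 : 2 * (1 / ((2 - τ) * (n : ℝ) ^ 2)) *
      (((n : ℝ) - (1 - τ) * n) ^ 2 * ((n : ℝ) + 2 * ((1 - τ) * n)) / 3) +
      4 * (1 / ((2 - τ) * (n : ℝ) ^ 2)) *
        (kap p * (4 / 3 * (τ * (n : ℝ)) ^ 3 + τ * n + 1) + E * (τ * n) ^ 2) =
      ((2 * τ ^ 2 + 4 / 3 * τ ^ 3) * n + 8 / 3 * τ ^ 3 * (n / p) + 4 * E * τ ^ 2 +
        4 * kap p * (τ / n + 1 / n ^ 2)) / (2 - τ) := by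
    unfold kap
    field_simp
    ring
  rw [e1, div_le_iff₀ h2t, ht2, ht3]
  have hnp : 0 ≤ (n : ℝ) / p := by positivity
  have e2 : 1.1 * (n : ℝ) / p = 1.1 * (n / p) := by ring
  have e3 : s - 3 = 2 * τ := by rw [hτ]; ring
  rw [e2, e3]
  have k1 : (2 * (3 - 3 * τ) + 4 / 3 * (12 * τ - 9)) * (n : ℝ) = 2 * τ * n * (2 - τ) := by
    have : 2 * τ * (n : ℝ) * (2 - τ) = (4 * τ - 2 * τ ^ 2) * n := by ring
    rw [this, ht2]
    ring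
  have k2 : 8 / 3 * (12 * τ - 9) * ((n : ℝ) / p) ≤ 1.1 * (n / p) * (2 - τ) := by
    have : 8 / 3 * (12 * τ - 9) ≤ 1.1 * (2 - τ) := by linarith
    calc 8 / 3 * (12 * τ - 9) * ((n : ℝ) / p) ≤ 1.1 * (2 - τ) * (n / p) :=
          mul_le_mul_of_nonneg_right this hnp
      _ = 1.1 * (n / p) * (2 - τ) := by ring
  have hE0 : 0 ≤ E := by
    rw [hEr, e0]
    positivity
  have k3 : 4 * E * (3 - 3 * τ) ≤ 2.073 * E * (2 - τ) := by
    have : 4 * (3 - 3 * τ) ≤ 2.073 * (2 - τ) := by linarith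
    calc 4 * E * (3 - 3 * τ) = 4 * (3 - 3 * τ) * E := by ring
      _ ≤ 2.073 * (2 - τ) * E := mul_le_mul_of_nonneg_right this hE0
      _ = 2.073 * E * (2 - τ) := by ring
  have k4 : 4 * kap p * (τ / n + 1 / (n : ℝ) ^ 2) ≤ 0.9 * (2 - τ) := by
    have q1 : kap p ≤ 0.6 := by
      unfold kap
      have : 1 / (p : ℝ) ≤ 1 / 5 := one_div_le_one_div_of_le (by norm_num) hpr
      linarith
    have q0 : 0 ≤ kap p := by unfold kap; positivity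
    have q2 : τ / n ≤ 0.16 := by
      rw [div_le_iff₀ hn0]
      nlinarith
    have q3 : 1 / (n : ℝ) ^ 2 ≤ 0.04 := by
      rw [div_le_iff₀ (by positivity)]
      nlinarith
    have q4 : 4 * kap p * (τ / n + 1 / (n : ℝ) ^ 2) ≤ 4 * 0.6 * (0.16 + 0.04) := by
      have : 0 ≤ τ / n + 1 / (n : ℝ) ^ 2 := by positivity
      calc 4 * kap p * (τ / n + 1 / (n : ℝ) ^ 2) ≤ 4 * 0.6 * (τ / n + 1 / (n : ℝ) ^ 2) :=
            mul_le_mul_of_nonneg_right (by linarith) this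
        _ ≤ 4 * 0.6 * (0.16 + 0.04) := by nlinarith
    have : 0.9 * (2 - 0.7913) ≤ 0.9 * (2 - τ) := by linarith
    refine q4.trans (le_trans ?_ this)
    norm_num
  have k5 : 2.073 * E ≤ 1.75 * (p : ℝ) ^ ((3 : ℝ) / 4) * (1 + Real.log p) + 2.073 := by
    rw [hEr]
    have : 1.75 * (p : ℝ) ^ ((3 : ℝ) / 4) * (1 + Real.log p) =
        1.75 * ((p : ℝ) ^ ((3 : ℝ) / 4) * (1 + Real.log p)) := by ring
    rw [this]
    linarith
  have k6 := mul_le_mul_of_nonneg_right k5 h2t.le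
  have k7 : (2 * τ * (n : ℝ) + 1.1 * (n / p) +
      1.75 * (p : ℝ) ^ ((3 : ℝ) / 4) * (1 + Real.log p) + 3) * (2 - τ) =
      2 * τ * n * (2 - τ) + 1.1 * (n / p) * (2 - τ) +
      (1.75 * (p : ℝ) ^ ((3 : ℝ) / 4) * (1 + Real.log p) + 2.073) * (2 - τ) +
        0.927 * (2 - τ) := by ring
  rw [k7]
  linarith

end H59.CM
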