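import Pool.Agent.H59.CM.Lin
import Pool.Agent.H59.CM.Oth
import Pool.Agent.H59.CM.FstC
import Pool.Agent.H59.CM.TanC
import Pool.Agent.H59.CM.Pair
import Pool.Agent.H59.CM.WtG
import Pool.Agent.H59.CM.WtH
import Pool.Agent.H59.CM.NumC

/-!
# The limit of the conic method: main theorem
-/

set_option autoImplicit false

namespace H59.CM

open Finset
open H59.N3 (Cell NoThree det)

/-- **Main theorem.** -/
theorem main {n p : ℕ} (hp : p.Prime) (h5 : 5 ≤ p) (hpn : p ≤ n)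
    (A B C D E F : ZMod p) (hd : disc A B C D E F ≠ 0) (S : Finset (Cell n)) (hS : NoThree S)
    (hC : ∀ c ∈ S, qf A B C D E F ((c.1 : Fin n) : ℕ) ((c.2 : Fin n) : ℕ) = 0) :
    ((A ≠ 0 ∨ C ≠ 0) → #S ≤ (n / p + 1) * (p + 3) ∧ 3 * #S ≤ 4 * n + 9 * (n / p + 1)) ∧
    ((A = 0 ∧ C = 0) →
      (p < n → #S + p + 2 * (n / p) + 5 ≤ 2 * n + 4 * ((n + p - 1) / p)) ∧
      (#S : ℝ) ≤ (Real.sqrt 21 - 3) * n + 1.1 * n / p + 1.04 * ((p : ℝ) + 1) ∧
      (#S : ℝ) ≤ (Real.sqrt 21 - 3) * n + 1.1 * n / p +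
        1.75 * (p : ℝ) ^ ((3 : ℝ) / 4) * (1 + Real.log p) + 3) ∧
    5 * #S ≤ 9 * n + 65 := by
  have : Fact p.Prime := ⟨hp⟩
  classical
  obtain ⟨T, hT, hcard, hTS⟩ := exists_four S hS
  have hCT : ∀ q ∈ T, qf A B C D E F q.1 q.2 = 0 := by
    intro q hq
    obtain ⟨c, hc, rfl⟩ := hTS q hq
    exact hC c hc
  rw [← hcard]
  by_cases hAC : A ≠ 0 ∨ C ≠ 0
  · obtain ⟨h1, h2⟩ := oth (by omega) hT A B C D E F hAC hd hCT
    obtain ⟨h3, h4⟩ := num_oth n p #T h5 hpn h1 h2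
    refine ⟨fun _ => ⟨h1, h3⟩, fun h => ?_, by omega⟩
    rcases hAC with h' | h'
    · exact absurd h.1 h'
    · exact absurd h.2 h'
  · push Not at hAC
    obtain ⟨rfl, rfl⟩ := hAC
    obtain ⟨a, b, k, hk, hH⟩ := to_hyp B D E F hd
    have hHT : ∀ q ∈ T, Hy a b k q := fun q hq => hH q.1 q.2 (hCT q hq)
    have h0 := hyp_row hT a b k hk hHT
    have h3 := wt_sqrt (by omega) hT a b k hk hHT
    have h3' := wt_sqrt2 h5 hpn hT a b k hk hHT
    have hF := Fst_card hpn a b k hk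
    have hpair := pair_le hT a b k hk hHT
    have h2 : p < n → #T + p + 2 * (n / p) + 5 ≤ 2 * n + 4 * ((n + p - 1) / p) := by
      intro hlt
      have hTa := Tan_card hlt a b k hk
      omega
    have h4 : n = p → #T ≤ p := by
      intro hnp
      have hTe : #(Tan n p a b k) = 0 := by
        rw [card_eq_zero]
        unfold Tan
        rw [filter_eq_empty_iff]
        intro q _ h
        omega
      have : n / p = 1 := by rw [hnp]; exact Nat.div_self hp.pos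
      omega
    refine ⟨fun h => ?_, fun _ => ⟨h2, h3, h3'⟩, num_hyp n p #T h5 hpn h0 h2 h3 h4⟩
    rcases h with h | h
    · exact absurd rfl h
    · exact absurd rfl h

end H59.CM
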