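import Mathlib

/-!
# Module ParS: sums of a parabola over a set with few elements in every interval

PROOF. Let `N = ⌊T⌋₊`, `W' = {u ∈ W | |u| ≤ N}`; the terms with `|u| > N` are `0` (`|u| ≥ N + 1 > T`). For `|u| ≤ N`:
`T ^ 2 - u ^ 2 = (T ^ 2 - N ^ 2) + ∑ j ∈ range N, (2 j + 1) * [|u| ≤ j]` (the sum over `|u| ≤ j < N` of
`(j + 1) ^ 2 - j ^ 2`). So the sum is `(T ^ 2 - N ^ 2) * #W' + ∑ j ∈ range N, (2 j + 1) * #{u ∈ W | |u| ≤ j}`. By `hW` with `A = -j`,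
`J = 2 j + 1`: `#{u ∈ W | |u| ≤ j} ≤ κ (2 j + 1) + E`. Total at most
`κ ((T ^ 2 - N ^ 2) (2 N + 1) + ∑ j ∈ range N, (2 j + 1) ^ 2) + E (T ^ 2 - N ^ 2 + ∑ j ∈ range N, (2 j + 1))`
`= κ (T ^ 2 (2 N + 1) - N (N + 1) (2 N + 1) / 3) + E T ^ 2`, as `∑ (2 j + 1) ^ 2 = N (4 N ^ 2 - 1) / 3`, `∑ (2 j + 1) = N ^ 2`. Finally, with
`M = N + 1/2`, `x = T - M ∈ [-1/2, 1/2)`, `N (N + 1) = M ^ 2 - 1/4`:
`4 / 3 T ^ 3 + T + 1 - T ^ 2 (2 N + 1) + N (N + 1) (2 N + 1) / 3 = 2 M x ^ 2 + 4 / 3 x ^ 3 + 5 / 6 M + x + 1 ≥ 0`.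
-/

set_option autoImplicit false

namespace H59.CM

open Finset

private theorem parS_sq (N : ℕ) : ∑ j ∈ range N, (2 * (j : ℝ) + 1) = (N : ℝ) ^ 2 := by
  induction N with
  | zero => simp
  | succ n ih =>
    rw [sum_range_succ, ih]
    push_cast
    ring

private theorem parS_cub (N : ℕ) :
    ∑ j ∈ range N, (2 * (j : ℝ) + 1) ^ 2 = (N : ℝ) * (4 * (N : ℝ) ^ 2 - 1) / 3 := by
  induction N with
  | zero => simp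
  | succ n ih =>
    rw [sum_range_succ, ih]
    push_cast
    ring

private theorem parS_ind (a N : ℕ) (h : a ≤ N) :
    ∑ j ∈ range N, (2 * (j : ℝ) + 1) * (if a ≤ j then 1 else 0) = (N : ℝ) ^ 2 - (a : ℝ) ^ 2 := by
  induction N with
  | zero =>
    have : a = 0 := by omega
    subst this
    simp
  | succ n ih =>
    rcases Nat.lt_or_ge n a with h1 | h1
    · have h2 : a = n + 1 := by omega
      subst h2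
      rw [sub_self]
      refine sum_eq_zero fun j hj => ?_
      rw [mem_range] at hj
      rw [if_neg (by omega), mul_zero]
    · rw [sum_range_succ, ih h1, if_pos h1]
      push_cast
      ring

private theorem parS_term (T : ℝ) (hT : 0 ≤ T) (u : ℤ) :
    max (T ^ 2 - (u : ℝ) ^ 2) 0 ≤
      (T ^ 2 - (⌊T⌋₊ : ℝ) ^ 2) * (if u.natAbs ≤ ⌊T⌋₊ then 1 else 0) +
        ∑ j ∈ range ⌊T⌋₊, (2 * (j : ℝ) + 1) * (if u.natAbs ≤ j then 1 else 0) := by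
  have hN : (⌊T⌋₊ : ℝ) ≤ T := Nat.floor_le hT
  have hN0 : (0 : ℝ) ≤ (⌊T⌋₊ : ℝ) := Nat.cast_nonneg _
  have hu : (u : ℝ) ^ 2 = ((u.natAbs : ℕ) : ℝ) ^ 2 := by
    rw [Nat.cast_natAbs, Int.cast_abs, sq_abs]
  have ha0 : (0 : ℝ) ≤ ((u.natAbs : ℕ) : ℝ) := Nat.cast_nonneg _
  by_cases h : u.natAbs ≤ ⌊T⌋₊
  · rw [parS_ind _ _ h, if_pos h, hu]
    have h1 : ((u.natAbs : ℕ) : ℝ) ≤ (⌊T⌋₊ : ℝ) := Nat.cast_le.2 h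
    have h2 : ((u.natAbs : ℕ) : ℝ) ^ 2 ≤ T ^ 2 := by
      apply pow_le_pow_left₀ ha0
      exact h1.trans hN
    rw [max_eq_left (by linarith)]
    linarith
  · have h1 : T < ((u.natAbs : ℕ) : ℝ) := Nat.lt_of_floor_lt (not_le.1 h)
    have h2 : T ^ 2 - (u : ℝ) ^ 2 ≤ 0 := by
      rw [hu]
      have := pow_le_pow_left₀ hT h1.le 2
      linarith
    rw [max_eq_right h2, if_neg h, mul_zero, zero_add]
    refine sum_nonneg fun j _ => ?_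
    split_ifs
    · positivity
    · simp

theorem par_sum (κ E T : ℝ) (hκ : 0 ≤ κ) (hE : 0 ≤ E) (hT : 0 ≤ T) (W : Finset ℤ)
    (hW : ∀ (A : ℤ) (J : ℕ), (#{u ∈ W | A ≤ u ∧ u < A + J} : ℝ) ≤ κ * J + E) :
    ∑ u ∈ W, max (T ^ 2 - (u : ℝ) ^ 2) 0 ≤ κ * (4 / 3 * T ^ 3 + T + 1) + E * T ^ 2 := by
  classical
  have hN : (⌊T⌋₊ : ℝ) ≤ T := Nat.floor_le hT
  have hN1 : T < (⌊T⌋₊ : ℝ) + 1 := Nat.lt_floor_add_one T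
  have hN0 : (0 : ℝ) ≤ (⌊T⌋₊ : ℝ) := Nat.cast_nonneg _
  have hc : ∀ j : ℕ, ∑ u ∈ W, (if u.natAbs ≤ j then (1 : ℝ) else 0) ≤ κ * (2 * j + 1) + E := by
    intro j
    have h1 := hW (-(j : ℤ)) (2 * j + 1)
    rw [← sum_filter, sum_const, nsmul_eq_mul, mul_one]
    have h2 : {u ∈ W | u.natAbs ≤ j} = {u ∈ W | -(j : ℤ) ≤ u ∧ u < -(j : ℤ) + ((2 * j + 1 : ℕ) : ℤ)} := by
      ext u
      simp only [mem_filter]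
      constructor
      · rintro ⟨hu, h⟩
        refine ⟨hu, ?_, ?_⟩
        · omega
        · push_cast
          omega
      · rintro ⟨hu, h, h'⟩
        refine ⟨hu, ?_⟩
        push_cast at h'
        omega
    rw [h2]
    push_cast at h1 ⊢
    exact h1
  have h1 : ∑ u ∈ W, max (T ^ 2 - (u : ℝ) ^ 2) 0 ≤
      (T ^ 2 - (⌊T⌋₊ : ℝ) ^ 2) * ∑ u ∈ W, (if u.natAbs ≤ ⌊T⌋₊ then (1 : ℝ) else 0) +
        ∑ j ∈ range ⌊T⌋₊, (2 * (j : ℝ) + 1) * ∑ u ∈ W, (if u.natAbs ≤ j then (1 : ℝ) else 0) := by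
    refine (sum_le_sum fun u _ => parS_term T hT u).trans (le_of_eq ?_)
    rw [sum_add_distrib, ← mul_sum, sum_comm]
    simp only [mul_sum]
  have h2 : 0 ≤ T ^ 2 - (⌊T⌋₊ : ℝ) ^ 2 := by
    have := pow_le_pow_left₀ hN0 hN 2
    linarith
  have h3 : ∑ j ∈ range ⌊T⌋₊, (2 * (j : ℝ) + 1) * ∑ u ∈ W, (if u.natAbs ≤ j then (1 : ℝ) else 0) ≤
      ∑ j ∈ range ⌊T⌋₊, (2 * (j : ℝ) + 1) * (κ * (2 * j + 1) + E) := by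
    refine sum_le_sum fun j _ => ?_
    exact mul_le_mul_of_nonneg_left (hc j) (by positivity)
  have h4 : ∑ j ∈ range ⌊T⌋₊, (2 * (j : ℝ) + 1) * (κ * (2 * j + 1) + E) =
      κ * ((⌊T⌋₊ : ℝ) * (4 * (⌊T⌋₊ : ℝ) ^ 2 - 1) / 3) + E * (⌊T⌋₊ : ℝ) ^ 2 := by
    rw [← parS_cub, ← parS_sq, mul_sum, mul_sum, ← sum_add_distrib]
    refine sum_congr rfl fun j _ => ?_
    ring
  have h5 : (T ^ 2 - (⌊T⌋₊ : ℝ) ^ 2) * ∑ u ∈ W, (if u.natAbs ≤ ⌊T⌋₊ then (1 : ℝ) else 0) ≤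
      (T ^ 2 - (⌊T⌋₊ : ℝ) ^ 2) * (κ * (2 * (⌊T⌋₊ : ℝ) + 1) + E) :=
    mul_le_mul_of_nonneg_left (hc _) h2
  have h6 : ∀ M y : ℝ, 0 ≤ M → 0 ≤ y → y < 1 →
      ((M + y) ^ 2 - M ^ 2) * (2 * M + 1) + M * (4 * M ^ 2 - 1) / 3 ≤
        4 / 3 * (M + y) ^ 3 + (M + y) + 1 := by
    intro M y hM hy hy1
    have e1 : 0 ≤ M * (y ^ 2 - y + 2 / 3) := mul_nonneg hM (by nlinarith [sq_nonneg (y - 1 / 2)])
    have e2 : 0 ≤ y ^ 3 := by positivity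
    have e3 : 0 ≤ y * (1 - y) := mul_nonneg hy (by linarith)
    have e4 : 4 / 3 * (M + y) ^ 3 + (M + y) + 1 -
        (((M + y) ^ 2 - M ^ 2) * (2 * M + 1) + M * (4 * M ^ 2 - 1) / 3) =
        2 * (M * (y ^ 2 - y + 2 / 3)) + 4 / 3 * y ^ 3 + y * (1 - y) + 1 := by ring
    linarith
  have h7 := h6 (⌊T⌋₊ : ℝ) (T - ⌊T⌋₊) hN0 (by linarith) (by linarith)
  have h8 : (⌊T⌋₊ : ℝ) + (T - ⌊T⌋₊) = T := by ring
  rw [h8] at h7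
  have h9 := mul_le_mul_of_nonneg_left h7 hκ
  have h10 : (T ^ 2 - (⌊T⌋₊ : ℝ) ^ 2) * (κ * (2 * (⌊T⌋₊ : ℝ) + 1) + E) +
      (κ * ((⌊T⌋₊ : ℝ) * (4 * (⌊T⌋₊ : ℝ) ^ 2 - 1) / 3) + E * (⌊T⌋₊ : ℝ) ^ 2) =
      κ * ((T ^ 2 - (⌊T⌋₊ : ℝ) ^ 2) * (2 * (⌊T⌋₊ : ℝ) + 1) +
        (⌊T⌋₊ : ℝ) * (4 * (⌊T⌋₊ : ℝ) ^ 2 - 1) / 3) + E * T ^ 2 := by ring
  linarith

end H59.CM
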