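import Pool.Agent.H59.CM.Cnt

/-!
# Module Rows: few residues of rows

PROOF. Let `U = {y ∈ range n | (y : ZMod p) ∈ R}`. `T` maps into `U` by `q ↦ q.2` and every fibre has
at most two elements (`hT.row`), so `#T ≤ 2 * #U` (`Finset.card_le_mul_card_image_of_maps_to` or
`card_eq_sum_card_fiberwise`). `#U = ∑ c ∈ R, #{y ∈ range n | (y : ZMod p) = c} ≤ #R * (n / p + 1)`
(`cnt_le'`). The complement of `U` in `range n` has at least `(n / p) * #(Rᶜ) = (n / p) * (p - #R)`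
elements (`cnt_ge`, `card_compl`, `ZMod.card`).
`hyp_row` is the case `R = univ.erase b` (`k ≠ 0`).
-/

set_option autoImplicit false

namespace H59.CM

open Finset

/-- the number of `y < n` with residue in `R`, class by class -/
theorem rows_sum {p : ℕ} [Fact p.Prime] (n : ℕ) (R : Finset (ZMod p)) :
    #{y ∈ range n | ((y : ℕ) : ZMod p) ∈ R} =
      ∑ c ∈ R, #{y ∈ range n | ((y : ℕ) : ZMod p) = c} := by
  rw [card_eq_sum_card_fiberwise (s := {y ∈ range n | ((y : ℕ) : ZMod p) ∈ R})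
    (f := fun y : ℕ => (y : ZMod p)) (t := R)
    (fun y hy => (mem_filter.1 (mem_coe.1 hy)).2)]
  refine sum_congr rfl fun c hc => ?_
  congr 1
  ext y
  simp only [mem_filter]
  constructor
  · rintro ⟨⟨h1, -⟩, h3⟩
    exact ⟨h1, h3⟩
  · rintro ⟨h1, h3⟩
    exact ⟨⟨h1, h3 ▸ hc⟩, h3⟩

theorem rows_le {p : ℕ} [Fact p.Prime] {n : ℕ} {T : Finset (ℕ × ℕ)} (hT : Four n T)
    (R : Finset (ZMod p)) (hR : ∀ q ∈ T, ((q.2 : ℕ) : ZMod p) ∈ R) :
    #T ≤ 2 * ((n / p + 1) * #R) ∧ #T + 2 * (n / p * (p - #R)) ≤ 2 * n := by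
  have h1 : #T ≤ 2 * #{y ∈ range n | ((y : ℕ) : ZMod p) ∈ R} := by
    refine card_le_mul_card_image_of_maps_to (f := fun q : ℕ × ℕ => q.2) ?_ 2 ?_
    · intro q hq
      exact mem_filter.2 ⟨mem_range.2 (hT.box q hq).2, hR q hq⟩
    · intro y _
      exact hT.row y
  have h2 : #{y ∈ range n | ((y : ℕ) : ZMod p) ∈ R} ≤ (n / p + 1) * #R := by
    rw [rows_sum]
    calc ∑ c ∈ R, #{y ∈ range n | ((y : ℕ) : ZMod p) = c}
        ≤ ∑ _c ∈ R, (n / p + 1) := sum_le_sum fun c _ => cnt_le' n c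
      _ = (n / p + 1) * #R := by rw [sum_const, smul_eq_mul, Nat.mul_comm]
  have h3 : n / p * (p - #R) ≤ #{y ∈ range n | ((y : ℕ) : ZMod p) ∈ Rᶜ} := by
    rw [rows_sum]
    calc n / p * (p - #R) = ∑ _c ∈ Rᶜ, n / p := by
          rw [sum_const, smul_eq_mul, card_compl, ZMod.card, Nat.mul_comm]
      _ ≤ ∑ c ∈ Rᶜ, #{y ∈ range n | ((y : ℕ) : ZMod p) = c} := sum_le_sum fun c _ => cnt_ge n c
  have h4 : #{y ∈ range n | ((y : ℕ) : ZMod p) ∈ R} +
      #{y ∈ range n | ((y : ℕ) : ZMod p) ∈ Rᶜ} = n := by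
    have h5 := card_filter_add_card_filter_not (s := range n)
      (fun y : ℕ => (y : ZMod p) ∈ R)
    rw [card_range] at h5
    simpa only [mem_compl] using h5
  constructor
  · exact h1.trans (Nat.mul_le_mul_left 2 h2)
  · omega

theorem hyp_row {p : ℕ} [Fact p.Prime] {n : ℕ} {T : Finset (ℕ × ℕ)} (hT : Four n T)
    (a b k : ZMod p) (hk : k ≠ 0) (hH : ∀ q ∈ T, Hy a b k q) : #T + 2 * (n / p) ≤ 2 * n := by
  have h := (rows_le hT (univ.erase b) (fun q hq => by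
    refine mem_erase.2 ⟨?_, mem_univ _⟩
    intro hb
    apply hk
    have h1 := hH q hq
    unfold Hy at h1
    rw [← h1, hb, sub_self, mul_zero])).2
  have hp : 0 < p := (Fact.out : p.Prime).pos
  rw [card_erase_of_mem (mem_univ b), card_univ, ZMod.card] at h
  have h6 : p - (p - 1) = 1 := by omega
  rw [h6, mul_one] at h
  exact h

end H59.CM
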