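import Pool.Agent.H59.CM.Defs
import Pool.Agent.H59.CM.ApS
import Pool.Agent.H59.CM.Cls

/-!
# Module WtD: the weights of the diagonals

PROOF of `dia_sum`. Let `g u = max (T0 ^ 2 - u ^ 2) 0 ≥ 0`. `∑ q ∈ T, g (q.1 - q.2)` is the sum over the set `W` of the
values `u = q.1 - q.2` (image of `T`, a finset of integers) of `#{q ∈ T | q.1 - q.2 = u} * g u ≤ 2 * g u` (`hT.dia`,
`Finset.sum_fiberwise_of_maps_to`). Every `u ∈ W` has the residue `(x - a) - (y - b) + (a - b) = s - k / s + (a - b)`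
with `s = x - a ≠ 0`, so the residues lie in the set `I` = image of `cls_card` shifted by `a - b`, `2 * #I ≤ p + 1`.
`∑ u ∈ W, g u = ∑ c ∈ I, ∑ u ∈ W with u = c, g u ≤ #I * (4 / 3 * T0 ^ 3 / p + T0 ^ 2)` (`ap_sum`).
`ant_sum`: the same with `x + y - (n - 1)`, `anti_card`: residues `s + k / s + (a + b) - (n - 1)`.
-/

set_option autoImplicit false

namespace H59.CM

open Finset

private lemma WtD_main {p : ℕ} [Fact p.Prime] {T : Finset (ℕ × ℕ)} (d : ℕ × ℕ → ℤ)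
    (J : Finset (ZMod p)) (e : ZMod p) (hJ : 2 * #J ≤ p + 1)
    (h2 : ∀ u : ℤ, #{q ∈ T | d q = u} ≤ 2) (hd : ∀ q ∈ T, ((d q : ℤ) : ZMod p) - e ∈ J)
    (T0 : ℝ) (hT0 : 0 ≤ T0) :
    ∑ q ∈ T, max (T0 ^ 2 - (d q : ℝ) ^ 2) 0 ≤ ((p : ℝ) + 1) * (4 / 3 * T0 ^ 3 / p + T0 ^ 2) := by
  have hp : 0 < p := (Fact.out : p.Prime).pos
  have hpR : (0 : ℝ) < p := by exact_mod_cast hp
  have h0 : ∀ u : ℤ, 0 ≤ max (T0 ^ 2 - (u : ℝ) ^ 2) 0 := fun u => le_max_right _ _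
  have hB : 0 ≤ 4 / 3 * T0 ^ 3 / p + T0 ^ 2 := by positivity
  have h3 : ∑ q ∈ T, max (T0 ^ 2 - (d q : ℝ) ^ 2) 0 =
      ∑ u ∈ T.image d, #{q ∈ T | d q = u} • max (T0 ^ 2 - (u : ℝ) ^ 2) 0 :=
    sum_comp (fun u : ℤ => max (T0 ^ 2 - (u : ℝ) ^ 2) 0) d
  have h4 : ∑ u ∈ T.image d, #{q ∈ T | d q = u} • max (T0 ^ 2 - (u : ℝ) ^ 2) 0 ≤
      2 * ∑ u ∈ T.image d, max (T0 ^ 2 - (u : ℝ) ^ 2) 0 := by
    rw [mul_sum]
    refine sum_le_sum fun u _ => ?_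
    rw [nsmul_eq_mul]
    refine mul_le_mul_of_nonneg_right ?_ (h0 u)
    exact_mod_cast h2 u
  have h5 : ∑ u ∈ T.image d, max (T0 ^ 2 - (u : ℝ) ^ 2) 0 =
      ∑ c ∈ J, ∑ u ∈ T.image d with ((u : ℤ) : ZMod p) - e = c, max (T0 ^ 2 - (u : ℝ) ^ 2) 0 := by
    refine (sum_fiberwise_of_maps_to ?_ _).symm
    intro u hu
    obtain ⟨q, hq, rfl⟩ := mem_image.1 hu
    exact hd q hq
  have h6 : ∑ c ∈ J, ∑ u ∈ T.image d with ((u : ℤ) : ZMod p) - e = c,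
      max (T0 ^ 2 - (u : ℝ) ^ 2) 0 ≤ #J * (4 / 3 * T0 ^ 3 / p + T0 ^ 2) := by
    rw [← nsmul_eq_mul]
    refine sum_le_card_nsmul _ _ _ fun c _ => ?_
    refine ap_sum T0 hT0 (c + e) _ ?_
    intro u hu
    rw [← (mem_filter.1 hu).2]
    ring
  have hJR : 2 * (#J : ℝ) ≤ p + 1 := by exact_mod_cast hJ
  rw [h3]
  refine h4.trans ?_
  rw [h5]
  nlinarith [mul_le_mul_of_nonneg_right hJR hB]

theorem dia_sum {p : ℕ} [Fact p.Prime] {n : ℕ} {T : Finset (ℕ × ℕ)} (hT : Four n T)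
    (a b k : ZMod p) (hk : k ≠ 0) (hH : ∀ q ∈ T, Hy a b k q) (T0 : ℝ) (hT0 : 0 ≤ T0) :
    ∑ q ∈ T, max (T0 ^ 2 - ((q.1 : ℝ) - (q.2 : ℝ)) ^ 2) 0 ≤
      ((p : ℝ) + 1) * (4 / 3 * T0 ^ 3 / p + T0 ^ 2) := by
  have h := WtD_main (fun q : ℕ × ℕ => (q.1 : ℤ) - (q.2 : ℤ))
    ((univ.erase (0 : ZMod p)).image fun s => s - k * s⁻¹) (a - b) (cls_card k hk) hT.dia ?_ T0 hT0
  · refine le_trans (le_of_eq ?_) h
    refine sum_congr rfl fun q _ => ?_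
    push_cast
    rfl
  · intro q hq
    have h1 : ((q.1 : ZMod p) - a) * ((q.2 : ZMod p) - b) = k := hH q hq
    have hs : (q.1 : ZMod p) - a ≠ 0 := by
      intro h0
      rw [h0, zero_mul] at h1
      exact hk h1.symm
    refine mem_image.2 ⟨(q.1 : ZMod p) - a, mem_erase.2 ⟨hs, mem_univ _⟩, ?_⟩
    have h2 : k * ((q.1 : ZMod p) - a)⁻¹ = (q.2 : ZMod p) - b := by
      rw [← h1]
      field_simp
    rw [h2]
    push_cast
    ring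

theorem ant_sum {p : ℕ} [Fact p.Prime] {n : ℕ} {T : Finset (ℕ × ℕ)} (hT : Four n T)
    (a b k : ZMod p) (hk : k ≠ 0) (hH : ∀ q ∈ T, Hy a b k q) (T0 : ℝ) (hT0 : 0 ≤ T0) :
    ∑ q ∈ T, max (T0 ^ 2 - ((q.1 : ℝ) + (q.2 : ℝ) - ((n : ℝ) - 1)) ^ 2) 0 ≤
      ((p : ℝ) + 1) * (4 / 3 * T0 ^ 3 / p + T0 ^ 2) := by
  have h := WtD_main (fun q : ℕ × ℕ => (q.1 : ℤ) + (q.2 : ℤ) - ((n : ℤ) - 1))
    ((univ.erase (0 : ZMod p)).image fun s => s + k * s⁻¹) (a + b - ((n : ZMod p) - 1))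
    (anti_card k hk) (T := T) ?_ ?_ T0 hT0
  · refine le_trans (le_of_eq ?_) h
    refine sum_congr rfl fun q _ => ?_
    push_cast
    rfl
  · intro u
    rcases Finset.eq_empty_or_nonempty
      {q ∈ T | (q.1 : ℤ) + (q.2 : ℤ) - ((n : ℤ) - 1) = u} with h0 | ⟨r, hr⟩
    · rw [h0]
      simp
    · refine le_trans (card_le_card ?_) (hT.ant (r.1 + r.2))
      intro q hq
      have h1 := (mem_filter.1 hr).2
      have h2 := (mem_filter.1 hq).2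
      refine mem_filter.2 ⟨(mem_filter.1 hq).1, ?_⟩
      omega
  · intro q hq
    have h1 : ((q.1 : ZMod p) - a) * ((q.2 : ZMod p) - b) = k := hH q hq
    have hs : (q.1 : ZMod p) - a ≠ 0 := by
      intro h0
      rw [h0, zero_mul] at h1
      exact hk h1.symm
    refine mem_image.2 ⟨(q.1 : ZMod p) - a, mem_erase.2 ⟨hs, mem_univ _⟩, ?_⟩
    have h2 : k * ((q.1 : ZMod p) - a)⁻¹ = (q.2 : ZMod p) - b := by
      rw [← h1]
      field_simp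
    rw [h2]
    push_cast
    ring

end H59.CM
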