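import Pool.Agent.H59.CM.Defs
import Pool.Agent.H59.CM.Kd
import Pool.Agent.H59.CM.ParS

/-!
# Module WtE: the weights of the diagonals, second form

PROOF of `dia_sum2` (compare `WtD.lean`). Let `W` be the image of `T` under `q ↦ (q.1 : ℤ) - q.2`. The sum is at most
`2 * ∑ u ∈ W, max (T0 ^ 2 - u ^ 2) 0` (`hT.dia`). Every `u ∈ W` has `(u : ZMod p) - (a - b) = (x - a) - (y - b) = s - k * s⁻¹ ∈ DD p k`,
`s = x - a ≠ 0`. So for every interval `#{u ∈ W | A ≤ u ∧ u < A + J} ≤ #{u ∈ Ico A (A + J) | u - (a - b) ∈ DD p k} ≤ kap p * J + Eg p`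
(`win_card`), and `par_sum`. `ant_sum2`: `V = x + y - (n - 1)`, `(V : ZMod p) - (a + b - (n - 1)) = s + k * s⁻¹ ∈ DD p (-k)`.
`0 ≤ kap p`, `0 ≤ Eg p`: `log p ≥ 0`.
-/

set_option autoImplicit false

namespace H59.CM

open Finset

private lemma WtE_kap (p : ℕ) : 0 ≤ kap p := by
  unfold kap
  positivity

private lemma WtE_Eg {p : ℕ} (hp : 0 < p) : 0 ≤ Eg p := by
  have h1 : (1 : ℝ) ≤ p := by exact_mod_cast hp
  have h2 := Real.log_nonneg h1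
  unfold Eg Er
  positivity

private lemma WtE_main {p : ℕ} [Fact p.Prime] {T : Finset (ℕ × ℕ)} (d : ℕ × ℕ → ℤ)
    (k e : ZMod p) (hk : k ≠ 0)
    (h2 : ∀ u : ℤ, #{q ∈ T | d q = u} ≤ 2) (hd : ∀ q ∈ T, ((d q : ℤ) : ZMod p) - e ∈ DD p k)
    (T0 : ℝ) (hT0 : 0 ≤ T0) :
    ∑ q ∈ T, max (T0 ^ 2 - (d q : ℝ) ^ 2) 0 ≤
      2 * (kap p * (4 / 3 * T0 ^ 3 + T0 + 1) + Eg p * T0 ^ 2) := by
  have hp : 0 < p := (Fact.out : p.Prime).pos
  have h0 : ∀ u : ℤ, 0 ≤ max (T0 ^ 2 - (u : ℝ) ^ 2) 0 := fun u => le_max_right _ _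
  have h3 : ∑ q ∈ T, max (T0 ^ 2 - (d q : ℝ) ^ 2) 0 =
      ∑ u ∈ T.image d, #{q ∈ T | d q = u} • max (T0 ^ 2 - (u : ℝ) ^ 2) 0 :=
    sum_comp (fun u : ℤ => max (T0 ^ 2 - (u : ℝ) ^ 2) 0) d
  have h4 : ∑ u ∈ T.image d, #{q ∈ T | d q = u} • max (T0 ^ 2 - (u : ℝ) ^ 2) 0 ≤
      2 * ∑ u ∈ T.image d, max (T0 ^ 2 - (u : ℝ) ^ 2) 0 := by
    rw [mul_sum]
    refine sum_le_sum fun u _ => ?_
    rw [nsmul_eq_mul]
    refine mul_le_mul_of_nonneg_right ?_ (h0 u)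
    exact_mod_cast h2 u
  have h5 := par_sum (kap p) (Eg p) T0 (WtE_kap p) (WtE_Eg hp) hT0 (T.image d) (by
    classical
    intro A J
    refine le_trans ?_ (win_card k hk e A J)
    have h6 : #{u ∈ T.image d | A ≤ u ∧ u < A + J} ≤
        #{u ∈ Finset.Ico A (A + (J : ℤ)) | (((u : ℤ) : ZMod p) - e) ∈ DD p k} := by
      refine card_le_card fun u hu => ?_
      obtain ⟨hu1, hu2⟩ := mem_filter.1 hu
      obtain ⟨q, hq, rfl⟩ := mem_image.1 hu1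
      exact mem_filter.2 ⟨mem_Ico.2 hu2, hd q hq⟩
    exact_mod_cast h6)
  rw [h3]
  linarith

theorem dia_sum2 {p : ℕ} [Fact p.Prime] {n : ℕ} {T : Finset (ℕ × ℕ)} (hT : Four n T)
    (a b k : ZMod p) (hk : k ≠ 0) (hH : ∀ q ∈ T, Hy a b k q) (T0 : ℝ) (hT0 : 0 ≤ T0) :
    ∑ q ∈ T, max (T0 ^ 2 - ((q.1 : ℝ) - (q.2 : ℝ)) ^ 2) 0 ≤
      2 * (kap p * (4 / 3 * T0 ^ 3 + T0 + 1) + Eg p * T0 ^ 2) := by
  have h := WtE_main (fun q : ℕ × ℕ => (q.1 : ℤ) - (q.2 : ℤ)) k (a - b) hk hT.dia ?_ T0 hT0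
  · refine le_trans (le_of_eq ?_) h
    refine sum_congr rfl fun q _ => ?_
    push_cast
    rfl
  · intro q hq
    have h1 : ((q.1 : ZMod p) - a) * ((q.2 : ZMod p) - b) = k := hH q hq
    have hs : (q.1 : ZMod p) - a ≠ 0 := by
      intro h0
      rw [h0, zero_mul] at h1
      exact hk h1.symm
    unfold DD
    refine mem_image.2 ⟨(q.1 : ZMod p) - a, mem_erase.2 ⟨hs, mem_univ _⟩, ?_⟩
    have h2 : k * ((q.1 : ZMod p) - a)⁻¹ = (q.2 : ZMod p) - b := by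
      rw [← h1]
      field_simp
    rw [h2]
    push_cast
    ring

theorem ant_sum2 {p : ℕ} [Fact p.Prime] {n : ℕ} {T : Finset (ℕ × ℕ)} (hT : Four n T)
    (a b k : ZMod p) (hk : k ≠ 0) (hH : ∀ q ∈ T, Hy a b k q) (T0 : ℝ) (hT0 : 0 ≤ T0) :
    ∑ q ∈ T, max (T0 ^ 2 - ((q.1 : ℝ) + (q.2 : ℝ) - ((n : ℝ) - 1)) ^ 2) 0 ≤
      2 * (kap p * (4 / 3 * T0 ^ 3 + T0 + 1) + Eg p * T0 ^ 2) := by
  have h := WtE_main (fun q : ℕ × ℕ => (q.1 : ℤ) + (q.2 : ℤ) - ((n : ℤ) - 1)) (-k)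
    (a + b - ((n : ZMod p) - 1)) (neg_ne_zero.mpr hk) (T := T) ?_ ?_ T0 hT0
  · refine le_trans (le_of_eq ?_) h
    refine sum_congr rfl fun q _ => ?_
    push_cast
    rfl
  · intro u
    rcases Finset.eq_empty_or_nonempty
      {q ∈ T | (q.1 : ℤ) + (q.2 : ℤ) - ((n : ℤ) - 1) = u} with h0 | ⟨r, hr⟩
    · rw [h0]
      simp
    · refine le_trans (card_le_card ?_) (hT.ant (r.1 + r.2))
      intro q hq
      have h1 := (mem_filter.1 hr).2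
      have h2 := (mem_filter.1 hq).2
      refine mem_filter.2 ⟨(mem_filter.1 hq).1, ?_⟩
      omega
  · intro q hq
    have h1 : ((q.1 : ZMod p) - a) * ((q.2 : ZMod p) - b) = k := hH q hq
    have hs : (q.1 : ZMod p) - a ≠ 0 := by
      intro h0
      rw [h0, zero_mul] at h1
      exact hk h1.symm
    unfold DD
    refine mem_image.2 ⟨(q.1 : ZMod p) - a, mem_erase.2 ⟨hs, mem_univ _⟩, ?_⟩
    have h2 : k * ((q.1 : ZMod p) - a)⁻¹ = (q.2 : ZMod p) - b := by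
      rw [← h1]
      field_simp
    rw [neg_mul, h2]
    push_cast
    ring

end H59.CM
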